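import Pool.Agent.H78.ZF.Fixed

universe u

namespace Pool.Agent.H78.ZF

variable {M : Type u}

section bridge

variable [inst : ZFM M]

theorem isUPair_iff (z x y : M) : IsUPair ZFM.E z x y ↔ z = upair x y := by
  constructor
  · intro h
    apply ext
    intro w
    rw [mem_upair]
    exact h w
  · rintro rfl w
    exact mem_upair x y w

theorem isOPair_iff (p x y : M) : IsOPair ZFM.E p x y ↔ p = opair x y := by
  unfold IsOPair
  simp only [isUPair_iff]
  constructor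
  · rintro ⟨a, b, rfl, rfl, rfl⟩; rfl
  · rintro rfl; exact ⟨_, _, rfl, rfl, rfl⟩

theorem isFun_iff (f a b : M) : IsFun ZFM.E f a b ↔ Fun f a b := by
  unfold IsFun Fun
  simp only [isOPair_iff]
  constructor
  · rintro ⟨h1, h2⟩
    refine ⟨fun p hp => ?_, fun x hx => ?_⟩
    · obtain ⟨x, y, hx, hy, e⟩ := h1 p hp
      exact ⟨x, hx, y, hy, e⟩
    · obtain ⟨y, ⟨p, rfl, hp⟩, h⟩ := h2 x hx
      exact ⟨y, hp, fun y' hy' => h y' ⟨_, rfl, hy'⟩⟩
  · rintro ⟨h1, h2⟩
    refine ⟨fun p hp => ?_, fun x hx => ?_⟩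
    · obtain ⟨x, hx, y, hy, e⟩ := h1 p hp
      exact ⟨x, y, hx, hy, e⟩
    · obtain ⟨y, hy, h⟩ := h2 x hx
      refine ⟨y, ⟨_, rfl, hy⟩, fun y' hy' => ?_⟩
      obtain ⟨p, rfl, hp⟩ := hy'
      exact h y' hp

theorem isInj_iff (f a b : M) : IsInj ZFM.E f a b ↔ Inj f a b := by
  unfold IsInj Inj
  simp only [isOPair_iff, isFun_iff]
  constructor
  · rintro ⟨h1, h2⟩
    exact ⟨h1, fun x x' y h h' => h2 x x' y _ _ rfl h rfl h'⟩
  · rintro ⟨h1, h2⟩
    refine ⟨h1, ?_⟩
    rintro x x' y p p' rfl h rfl h'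
    exact h2 x x' y h h'

theorem isBij_iff (f a b : M) : IsBij ZFM.E f a b ↔ Bij f a b := by
  unfold IsBij Bij
  simp only [isOPair_iff, isInj_iff]
  constructor
  · rintro ⟨h1, h2⟩
    refine ⟨h1, fun y hy => ?_⟩
    obtain ⟨x, p, rfl, hp⟩ := h2 y hy
    exact ⟨x, hp⟩
  · rintro ⟨h1, h2⟩
    refine ⟨h1, fun y hy => ?_⟩
    obtain ⟨x, hp⟩ := h2 y hy
    exact ⟨x, _, rfl, hp⟩

theorem isInductive_iff (I : M) : IsInductive ZFM.E I ↔ Inductive I := by
  unfold IsInductive Inductive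
  constructor
  · rintro ⟨⟨e, he, heI⟩, h⟩
    refine ⟨?_, fun y hy => ?_⟩
    · have : e = emp := eq_emp he
      rw [← this]; exact heI
    · obtain ⟨s, hs, hsI⟩ := h y hy
      have : s = succ y := by
        apply ext
        intro z
        rw [mem_succ]
        exact hs z
      rw [← this]; exact hsI
  · rintro ⟨h1, h2⟩
    refine ⟨⟨emp, not_mem_emp, h1⟩, fun y hy => ⟨succ y, fun z => mem_succ y z, h2 y hy⟩⟩

theorem isOmega_iff (w : M) : IsOmega ZFM.E w ↔ w = omega := by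
  unfold IsOmega
  simp only [isInductive_iff]
  constructor
  · rintro ⟨h1, h2⟩
    apply sub_antisymm
    · exact fun x hx => h2 omega inductive_omega x hx
    · intro x hx
      exact mem_omega.1 hx w h1
  · rintro rfl
    exact ⟨inductive_omega, fun I hI x hx => mem_omega.1 hx I hI⟩

theorem isPowerset_iff (P a : M) : IsPowerset ZFM.E P a ↔ P = pow a := by
  constructor
  · intro h
    apply ext
    intro w
    rw [mem_pow]
    exact h w
  · rintro rfl w
    exact mem_pow a w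

theorem isFiniteSet_iff (a : M) : IsFiniteSet ZFM.E a ↔ FinM a := by
  unfold IsFiniteSet FinM
  simp only [isOmega_iff, isBij_iff]
  constructor
  · rintro ⟨w, n, f, rfl, hn, hf⟩
    exact ⟨n, hn, f, hf⟩
  · rintro ⟨n, hn, f, hf⟩
    exact ⟨omega, n, f, rfl, hn, hf⟩

theorem isSym_iff (S a : M) : IsSym ZFM.E S a ↔ S = sym a := by
  unfold IsSym
  simp only [isBij_iff]
  constructor
  · intro h
    apply ext
    intro f
    rw [mem_sym]
    exact h f
  · rintro rfl f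
    exact mem_sym a f

theorem ftoSym_of (F a : M) (h : IsFiniteToOne ZFM.E F (sym a) a) : FtoSym F a := by
  obtain ⟨h1, h2⟩ := h
  rw [isFun_iff] at h1
  refine ⟨h1, fun y hy => ?_⟩
  rw [← isFiniteSet_iff]
  apply h2 y hy
  intro x
  have h3 : x ∈ sep (sym a) (fun p => ap F p = y) ↔ x ∈ sym a ∧ ap F x = y := mem_sep _ _ _
  refine h3.trans ⟨?_, ?_⟩
  · rintro ⟨hx, rfl⟩
    exact ⟨hx, _, (isOPair_iff _ _ _).2 rfl, h1.opair_ap hx⟩
  · rintro ⟨hx, p, hp, hpF⟩
    rw [isOPair_iff] at hp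
    subst hp
    exact ⟨hx, h1.ap_eq hpF⟩

end bridge

end Pool.Agent.H78.ZF
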