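import Pool.Agent.H78.ZF.Defn

universe u

namespace Pool.Agent.H78.ZF

open Set

variable {M : Type u} [ZFM M] {ι : Type}

theorem ext {x y : M} (h : ∀ z, z ∈ x ↔ z ∈ y) : x = y := ZFM.zf.extensionality x y h

theorem exists_empty : ∃ e : M, ∀ z, z ∉ e := by
  obtain ⟨x, ⟨e, _, he⟩, _⟩ := ZFM.zf.infinity (M := M)
  exact ⟨e, he⟩

/-- the empty set of the model -/
noncomputable def emp : M := Classical.choose exists_empty

@[simp] theorem not_mem_emp (z : M) : ¬ z ∈ (emp : M) := Classical.choose_spec exists_empty z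

/-- The unique element of the model with a property, if there is one. -/
noncomputable def iota (P : M → Prop) : M := by
  classical
  exact if h : ∃! x, P x then Classical.choose h.exists else emp

theorem iota_spec {P : M → Prop} (h : ∃! x, P x) : P (iota P) := by
  unfold iota
  rw [dif_pos h]
  exact Classical.choose_spec h.exists

theorem iota_eq {P : M → Prop} {a : M} (h : P a) (h' : ∀ x, P x → x = a) : iota P = a :=
  h' _ (iota_spec ⟨a, h, h'⟩)

theorem iota_neg {P : M → Prop} (h : ¬ ∃! x, P x) : iota P = emp := by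
  unfold iota
  rw [dif_neg h]

instance DF.iota (P : M → (ι → M) → Prop)
    [h : DR (ι := Option ι) (fun v => P (v none) (fun i => v (some i)))] :
    DF (fun v => iota (fun x => P x v)) := by
  rw [DF_iff]
  have hw : DR (ι := Option (Option ι)) (fun v => P (v none) (fun i => v (some (some i)))) :=
    DR.weaken (fun w : Option ι → M => P (w none) (fun i => w (some i)))
      (fun o : Option ι => (match o with | none => none | some i => some (some i) :
        Option (Option ι)))
  have h2 : DR (ι := Option ι) (fun v => (∃! x, P x (fun i => v (some i)))) := by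
    have := DR.exU P
    infer_instance
  have h3 : DR (ι := Option ι) (fun v => (P (v none) (fun i => v (some i)) ∧
      ∀ y, P y (fun i => v (some i)) → y = v none) ∨
      ((¬ ∃! x, P x (fun i => v (some i))) ∧ emp = v none)) := by
    infer_instance
  convert h3 using 1
  ext v
  constructor
  · intro hv
    by_cases hu : ∃! x, P x (fun i => v (some i))
    · left
      rw [← hv]
      refine ⟨iota_spec hu, fun y hy => ?_⟩
      exact hu.unique hy (iota_spec hu)
    · right
      refine ⟨hu, ?_⟩
      rw [← hv, iota_neg hu]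
  · rintro (⟨h1, h2⟩ | ⟨h1, h2⟩)
    · exact iota_eq h1 h2
    · rw [← h2, iota_neg h1]

instance instSub : HasSubset M := ⟨fun x y => ∀ z, z ∈ x → z ∈ y⟩

theorem sub_def {x y : M} : x ⊆ y ↔ ∀ z, z ∈ x → z ∈ y := Iff.rfl

instance DR.sub (s t : (ι → M) → M) [DF s] [DF t] : DR (fun v => s v ⊆ t v) := by
  simp only [sub_def]
  infer_instance

theorem sub_refl (x : M) : x ⊆ x := fun _ h => h

theorem sub_trans {x y z : M} (h : x ⊆ y) (h' : y ⊆ z) : x ⊆ z := fun _ hw => h' _ (h _ hw)

theorem sub_antisymm {x y : M} (h : x ⊆ y) (h' : y ⊆ x) : x = y :=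
  ext fun z => ⟨h z, h' z⟩

@[simp] theorem emp_sub (x : M) : emp ⊆ x := fun z h => absurd h (not_mem_emp z)

theorem eq_emp {x : M} (h : ∀ z, z ∉ x) : x = emp := ext fun z => by simp [h z]

theorem ne_emp_iff {x : M} : x ≠ emp ↔ ∃ z, z ∈ x := by
  constructor
  · intro h
    by_contra hc
    push Not at hc
    exact h (eq_emp hc)
  · rintro ⟨z, hz⟩ rfl
    exact not_mem_emp z hz

/-- Separation as an operation. -/
noncomputable def sep (a : M) (P : M → Prop) : M := iota (fun b => ∀ x, x ∈ b ↔ x ∈ a ∧ P x)

@[simp] theorem mem_sep (a : M) (P : M → Prop) [D1 P] (x : M) : x ∈ sep a P ↔ x ∈ a ∧ P x := by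
  have h : ∃! b : M, ∀ x, x ∈ b ↔ x ∈ a ∧ P x := by
    obtain ⟨b, hb⟩ := exists_sep P a
    exact ⟨b, hb, fun c hc => ext fun z => by rw [hc z, hb z]⟩
  exact iota_spec h x

instance DF.sep (a : (ι → M) → M) (P : M → (ι → M) → Prop) [DF a]
    [h : DR (ι := Option ι) (fun v => P (v none) (fun i => v (some i)))] :
    DF (fun v => sep (a v) (fun x => P x v)) := by
  have hw : DR (ι := Option (Option ι)) (fun v => P (v none) (fun i => v (some (some i)))) :=
    DR.weaken (fun w : Option ι → M => P (w none) (fun i => w (some i)))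
      (fun o : Option ι => (match o with | none => none | some i => some (some i) :
        Option (Option ι)))
  unfold ZF.sep
  infer_instance

/-- Unordered pair. -/
noncomputable def upair (x y : M) : M := iota (fun z => ∀ w, w ∈ z ↔ w = x ∨ w = y)

@[simp] theorem mem_upair (x y w : M) : w ∈ upair x y ↔ w = x ∨ w = y := by
  have h : ∃! z : M, ∀ w, w ∈ z ↔ w = x ∨ w = y := by
    obtain ⟨b, hb⟩ := ZFM.zf.pairing x y
    exact ⟨b, hb, fun c hc => ext fun z => by rw [hc z]; exact (hb z).symm⟩
  exact iota_spec h w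

instance DF.upair (s t : (ι → M) → M) [DF s] [DF t] : DF (fun v => upair (s v) (t v)) := by
  unfold ZF.upair
  infer_instance

/-- Singleton. -/
noncomputable def sing (x : M) : M := upair x x

@[simp] theorem mem_sing (x w : M) : w ∈ sing x ↔ w = x := by simp [sing]

instance DF.sing (s : (ι → M) → M) [DF s] : DF (fun v => sing (s v)) := by
  unfold ZF.sing
  infer_instance

/-- Union of the elements. -/
noncomputable def sUn (x : M) : M := iota (fun u => ∀ w, w ∈ u ↔ ∃ y, y ∈ x ∧ w ∈ y)

@[simp] theorem mem_sUn (x w : M) : w ∈ sUn x ↔ ∃ y, y ∈ x ∧ w ∈ y := by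
  have h : ∃! z : M, ∀ w, w ∈ z ↔ ∃ y, y ∈ x ∧ w ∈ y := by
    obtain ⟨b, hb⟩ := ZFM.zf.union x
    exact ⟨b, hb, fun c hc => ext fun z => by rw [hc z]; exact (hb z).symm⟩
  exact iota_spec h w

instance DF.sUn (s : (ι → M) → M) [DF s] : DF (fun v => sUn (s v)) := by
  unfold ZF.sUn
  infer_instance

/-- Power set. -/
noncomputable def pow (x : M) : M := iota (fun p => ∀ w, w ∈ p ↔ w ⊆ x)

@[simp] theorem mem_pow (x w : M) : w ∈ pow x ↔ w ⊆ x := by
  have h : ∃! z : M, ∀ w, w ∈ z ↔ w ⊆ x := by
    obtain ⟨b, hb⟩ := ZFM.zf.powerset x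
    exact ⟨b, hb, fun c hc => ext fun z => by rw [hc z]; exact (hb z).symm⟩
  exact iota_spec h w

instance DF.pow (s : (ι → M) → M) [DF s] : DF (fun v => pow (s v)) := by
  unfold ZF.pow
  infer_instance

/-- Binary union. -/
noncomputable def un (x y : M) : M := sUn (upair x y)

@[simp] theorem mem_un (x y w : M) : w ∈ un x y ↔ w ∈ x ∨ w ∈ y := by simp [un]

instance DF.un (s t : (ι → M) → M) [DF s] [DF t] : DF (fun v => un (s v) (t v)) := by
  unfold ZF.un
  infer_instance

/-- Adjoin one element. -/
noncomputable def ins (x a : M) : M := un x (sing a)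

@[simp] theorem mem_ins (x a w : M) : w ∈ ins x a ↔ w ∈ x ∨ w = a := by simp [ins]

instance DF.ins (s t : (ι → M) → M) [DF s] [DF t] : DF (fun v => ins (s v) (t v)) := by
  unfold ZF.ins
  infer_instance

/-- Ordered pair (Kuratowski). -/
noncomputable def opair (x y : M) : M := upair (sing x) (upair x y)

instance DF.opair (s t : (ι → M) → M) [DF s] [DF t] : DF (fun v => opair (s v) (t v)) := by
  unfold ZF.opair
  infer_instance

theorem sing_inj {x y : M} (h : sing x = sing y) : x = y := by
  have : x ∈ sing y := by rw [← h]; simp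
  simpa using this

theorem opair_inj {x y x' y' : M} (h : opair x y = opair x' y') : x = x' ∧ y = y' := by
  have key : ∀ a b : M, ∀ w, w ∈ opair a b ↔ w = sing a ∨ w = upair a b := by
    intro a b w; simp [opair]
  have h1 : sing x ∈ opair x' y' := by rw [← h, key]; left; rfl
  have hx : x = x' := by
    rw [key] at h1
    rcases h1 with h1 | h1
    · exact sing_inj h1
    · have : x' ∈ sing x := by rw [h1]; simp
      exact ((mem_sing _ _).1 this).symm
  subst hx
  refine ⟨rfl, ?_⟩
  have h2 : upair x y ∈ opair x y' := by rw [← h, key]; right; rfl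
  have h3 : upair x y' ∈ opair x y := by rw [h, key]; right; rfl
  rw [key] at h2 h3
  rcases h2 with h2 | h2
  · have hy : y = x := by
      have : y ∈ sing x := by rw [← h2]; simp
      simpa using this
    rcases h3 with h3 | h3
    · have : y' ∈ sing x := by rw [← h3]; simp
      rw [hy]; exact ((mem_sing _ _).1 this).symm
    · have : y' ∈ upair x y := by rw [← h3]; simp
      rw [hy] at this ⊢
      simp only [mem_upair, or_self] at this
      exact this.symm
  · have hy : y ∈ upair x y' := by rw [← h2]; simp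
    rw [mem_upair] at hy
    rcases hy with hy | hy
    · have : y' ∈ upair x y := by rw [h2]; simp
      rw [hy] at this ⊢
      simp only [mem_upair, or_self] at this
      exact this.symm
    · exact hy

@[simp] theorem opair_eq_iff {x y x' y' : M} : opair x y = opair x' y' ↔ x = x' ∧ y = y' :=
  ⟨opair_inj, by rintro ⟨rfl, rfl⟩; rfl⟩

/-- Cartesian product. -/
noncomputable def prod (a b : M) : M :=
  sep (pow (pow (un a b))) (fun p => ∃ x, x ∈ a ∧ ∃ y, y ∈ b ∧ p = opair x y)

theorem mem_prod (a b p : M) : p ∈ prod a b ↔ ∃ x, x ∈ a ∧ ∃ y, y ∈ b ∧ p = opair x y := by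
  unfold prod
  rw [mem_sep]
  constructor
  · exact fun h => h.2
  · intro h
    refine ⟨?_, h⟩
    obtain ⟨x, hx, y, hy, rfl⟩ := h
    rw [mem_pow]
    intro z hz
    rw [mem_pow]
    intro w hw
    simp only [opair, mem_upair] at hz
    rw [mem_un]
    rcases hz with rfl | rfl
    · rw [mem_sing] at hw; subst hw; left; exact hx
    · rw [mem_upair] at hw
      rcases hw with rfl | rfl
      · left; exact hx
      · right; exact hy

@[simp] theorem opair_mem_prod (a b x y : M) : opair x y ∈ prod a b ↔ x ∈ a ∧ y ∈ b := by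
  rw [mem_prod]
  constructor
  · rintro ⟨x', hx', y', hy', h⟩
    obtain ⟨rfl, rfl⟩ := opair_inj h
    exact ⟨hx', hy'⟩
  · rintro ⟨hx, hy⟩
    exact ⟨x, hx, y, hy, rfl⟩

instance DF.prod (s t : (ι → M) → M) [DF s] [DF t] : DF (fun v => prod (s v) (t v)) := by
  unfold ZF.prod
  infer_instance

end Pool.Agent.H78.ZF
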