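import Pool.Agent.H78.ZF.Pairing

universe u

namespace Pool.Agent.H78.ZF

open Set

variable {M : Type u} [ZFM M] {ι : Type}

/-- `f` is a finite-to-one function from the permutations of `A` to `A`. -/
def FtoSym (f A : M) : Prop :=
  Fun f (sym A) A ∧ ∀ a, a ∈ A → FinM (sep (sym A) (fun p => ap f p = a))

/-- Strict bound for the numbers hit by permutations that `f` sends to the `n`-th point. -/
noncomputable def bnd (A f u n : M) : M :=
  least (fun b => ∀ p, p ∈ sym A → ap f p = ap u n → ∀ k, k ∈ (omega : M) →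
    ap p (ap u (pr n emp)) = ap u (pr n (succ k)) → k ∈ b)

instance DF.bnd (A f u n : (ι → M) → M) [DF A] [DF f] [DF u] [DF n] :
    DF (fun v => bnd (A v) (f v) (u v) (n v)) := by
  unfold ZF.bnd
  infer_instance

theorem bnd_spec {A f u n : M} (hf : FtoSym f A) (hu : Inj u omega A) (hn : n ∈ (omega : M)) :
    bnd A f u n ∈ (omega : M) ∧ ∀ p, p ∈ sym A → ap f p = ap u n → ∀ k, k ∈ (omega : M) →
    ap p (ap u (pr n emp)) = ap u (pr n (succ k)) → k ∈ bnd A f u n := by
  have h := fin_bounded (fun p k => ap p (ap u (pr n emp)) = ap u (pr n (succ k)))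
    (hf.2 (ap u n) (hu.fun.ap_mem hn)) (by
      intro p _
      by_cases hex : ∃ k, k ∈ (omega : M) ∧ ap p (ap u (pr n emp)) = ap u (pr n (succ k))
      · obtain ⟨k, hk, e⟩ := hex
        refine ⟨succ k, succ_mem_omega hk, fun k' hk' e' => ?_⟩
        have h1 := hu.ap_inj (pr_mem hn (succ_mem_omega hk)) (pr_mem hn (succ_mem_omega hk'))
          (e.symm.trans e')
        have h2 := (pr_inj hn (succ_mem_omega hk) hn (succ_mem_omega hk') h1).2
        rw [succ_inj hk hk' h2]; simp
      · push Not at hex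
        exact ⟨emp, emp_mem_omega, fun k hk e => absurd e (hex k hk)⟩)
  obtain ⟨b, hb, h1⟩ := h
  have h2 := least_spec (fun b => ∀ p, p ∈ sym A → ap f p = ap u n → ∀ k, k ∈ (omega : M) →
    ap p (ap u (pr n emp)) = ap u (pr n (succ k)) → k ∈ b)
    ⟨b, hb, fun p hp e k hk e' => h1 p (by rw [mem_sep]; exact ⟨hp, e⟩) k hk e'⟩
  exact ⟨h2.1, h2.2.1⟩

/-- The matching used for the `j`-th new permutation. -/
def mt (A f U j x y : M) : Prop :=
  ∃ u, u ∈ U ∧ ∃ n, n ∈ (omega : M) ∧
    ((x = ap u (pr n emp) ∧ y = ap u (pr n (succ (un (bnd A f u n) j)))) ∨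
     (y = ap u (pr n emp) ∧ x = ap u (pr n (succ (un (bnd A f u n) j)))))

instance DR.mt (A f U j x y : (ι → M) → M) [DF A] [DF f] [DF U] [DF j] [DF x] [DF y] :
    DR (fun v => mt (A v) (f v) (U v) (j v) (x v) (y v)) := by
  unfold ZF.mt
  infer_instance

/-- Families of injections of `omega` in `A` with pairwise disjoint ranges. -/
def Good (A u0 U : M) : Prop :=
  u0 ∈ U ∧ (∀ u, u ∈ U → Inj u omega A) ∧
  ∀ u v, u ∈ U → v ∈ U → u ≠ v → ∀ m n, m ∈ (omega : M) → n ∈ (omega : M) → ap u m ≠ ap v n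

instance DR.Good (A u0 U : (ι → M) → M) [DF A] [DF u0] [DF U] :
    DR (fun v => Good (A v) (u0 v) (U v)) := by
  unfold ZF.Good
  infer_instance

/-- The `j`-th new permutation. -/
noncomputable def sg (A f U j : M) : M := invol A (fun x y => mt A f U j x y)

instance DF.sg (A f U j : (ι → M) → M) [DF A] [DF f] [DF U] [DF j] :
    DF (fun v => sg (A v) (f v) (U v) (j v)) := by
  unfold ZF.sg
  infer_instance

section
variable {A f u0 U : M}

theorem mt_mem (hf : FtoSym f A) (hU : Good A u0 U) {j : M} (hj : j ∈ (omega : M)) :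
    ∀ x y, mt A f U j x y → x ∈ A := by
  rintro x y ⟨u, hu, n, hn, h⟩
  have hui := hU.2.1 u hu
  have hb := (bnd_spec hf hui hn).1
  rcases h with ⟨rfl, _⟩ | ⟨_, rfl⟩
  · exact hui.fun.ap_mem (pr_mem hn emp_mem_omega)
  · exact hui.fun.ap_mem (pr_mem hn (succ_mem_omega (un_omega hb hj)))

theorem mt_symm {j : M} : ∀ x y, mt A f U j x y → mt A f U j y x := by
  rintro x y ⟨u, hu, n, hn, h⟩
  exact ⟨u, hu, n, hn, h.symm⟩

theorem good_eq (hU : Good A u0 U) {u v : M} (hu : u ∈ U) (hv : v ∈ U) {m n : M}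
    (hm : m ∈ (omega : M)) (hn : n ∈ (omega : M)) (e : ap u m = ap v n) : u = v ∧ m = n := by
  have : u = v := by
    by_contra hne
    exact hU.2.2 u v hu hv hne m n hm hn e
  subst this
  exact ⟨rfl, (hU.2.1 u hu).ap_inj hm hn e⟩

theorem mt_fun (hf : FtoSym f A) (hU : Good A u0 U) {j : M} (hj : j ∈ (omega : M)) :
    ∀ x y z, mt A f U j x y → mt A f U j x z → y = z := by
  rintro x y z ⟨u, hu, n, hn, h⟩ ⟨u', hu', n', hn', h'⟩
  have hb := (bnd_spec hf (hU.2.1 u hu) hn).1
  have hb' := (bnd_spec hf (hU.2.1 u' hu') hn').1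
  have hk := succ_mem_omega (un_omega hb hj)
  have hk' := succ_mem_omega (un_omega hb' hj)
  rcases h with ⟨e1, e2⟩ | ⟨e2, e1⟩ <;> rcases h' with ⟨e1', e2'⟩ | ⟨e2', e1'⟩
  · obtain ⟨rfl, e⟩ := good_eq hU hu hu' (pr_mem hn emp_mem_omega) (pr_mem hn' emp_mem_omega)
      (e1.symm.trans e1')
    obtain ⟨rfl, _⟩ := pr_inj hn emp_mem_omega hn' emp_mem_omega e
    rw [e2, e2']
  · obtain ⟨rfl, e⟩ := good_eq hU hu hu' (pr_mem hn emp_mem_omega) (pr_mem hn' hk')
      (e1.symm.trans e1')
    obtain ⟨_, e9⟩ := pr_inj hn emp_mem_omega hn' hk' e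
    exact absurd e9.symm (succ_ne_emp _)
  · obtain ⟨rfl, e⟩ := good_eq hU hu hu' (pr_mem hn hk) (pr_mem hn' emp_mem_omega)
      (e1.symm.trans e1')
    obtain ⟨_, e9⟩ := pr_inj hn hk hn' emp_mem_omega e
    exact absurd e9 (succ_ne_emp _)
  · obtain ⟨rfl, e⟩ := good_eq hU hu hu' (pr_mem hn hk) (pr_mem hn' hk')
      (e1.symm.trans e1')
    obtain ⟨rfl, e⟩ := pr_inj hn hk hn' hk' e
    rw [e2, e2']

theorem sg_mem (hf : FtoSym f A) (hU : Good A u0 U) {j : M} (hj : j ∈ (omega : M)) :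
    sg A f U j ∈ sym A := by
  rw [mem_sym]
  exact invol_bij (mt_mem hf hU hj) mt_symm (mt_fun hf hU hj)

theorem ap_sg (hf : FtoSym f A) (hU : Good A u0 U) {j : M} (hj : j ∈ (omega : M))
    {u n : M} (hu : u ∈ U) (hn : n ∈ (omega : M)) :
    ap (sg A f U j) (ap u (pr n emp)) = ap u (pr n (succ (un (bnd A f u n) j))) :=
  ap_invol_of (mt_mem hf hU hj) mt_symm (mt_fun hf hU hj) ⟨u, hu, n, hn, Or.inl ⟨rfl, rfl⟩⟩

theorem f_sg_ne (hf : FtoSym f A) (hU : Good A u0 U) {j : M} (hj : j ∈ (omega : M))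
    {u n : M} (hu : u ∈ U) (hn : n ∈ (omega : M)) : ap f (sg A f U j) ≠ ap u n := by
  intro e
  have h := bnd_spec hf (hU.2.1 u hu) hn
  have h1 := h.2 _ (sg_mem hf hU hj) e _ (un_omega h.1 hj) (ap_sg hf hU hj hu hn)
  exact not_mem_self _ (sub_un_left _ j _ h1)

theorem sg_inj (hf : FtoSym f A) (hU : Good A u0 U) {j k : M} (hj : j ∈ (omega : M))
    (hk : k ∈ (omega : M)) (e : sg A f U j = sg A f U k) :
    un (bnd A f u0 emp) j = un (bnd A f u0 emp) k := by
  have h1 := ap_sg hf hU hj hU.1 emp_mem_omega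
  have h2 := ap_sg hf hU hk hU.1 emp_mem_omega
  rw [e, h2] at h1
  have hb := (bnd_spec hf (hU.2.1 u0 hU.1) emp_mem_omega).1
  have hj' := un_omega hb hj
  have hk' := un_omega hb hk
  have h3 := (hU.2.1 u0 hU.1).ap_inj (pr_mem emp_mem_omega (succ_mem_omega hk'))
    (pr_mem emp_mem_omega (succ_mem_omega hj')) h1
  have h4 := (pr_inj emp_mem_omega (succ_mem_omega hk') emp_mem_omega (succ_mem_omega hj') h3).2
  exact (succ_inj hk' hj' h4).symm

end

/-- The sequence of new points. -/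
noncomputable def nq (A f U : M) : M := mkf omega A (fun j => ap f (sg A f U j))

instance DF.nq (A f U : (ι → M) → M) [DF A] [DF f] [DF U] :
    DF (fun v => nq (A v) (f v) (U v)) := by
  unfold ZF.nq
  infer_instance

/-- The new injection. -/
noncomputable def nu (A f U : M) : M := injOf (nq A f U) omega A

instance DF.nu (A f U : (ι → M) → M) [DF A] [DF f] [DF U] :
    DF (fun v => nu (A v) (f v) (U v)) := by
  unfold ZF.nu
  infer_instance

theorem unb_omega : Unb (omega : M) := ⟨sub_refl _, fun n hn => ⟨n, hn, sub_refl _⟩⟩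

section
variable {A f u0 U : M}

theorem ap_nq (hf : FtoSym f A) (hU : Good A u0 U) {j : M} (hj : j ∈ (omega : M)) :
    ap (nq A f U) j = ap f (sg A f U j) :=
  ap_mkf (fun _ hj => hf.1.ap_mem (sg_mem hf hU hj)) hj

theorem nu_spec (hf : FtoSym f A) (hU : Good A u0 U) : Inj (nu A f U) omega A ∧
    ∀ n, n ∈ (omega : M) → ∃ k, k ∈ (omega : M) ∧ ap (nu A f U) n = ap f (sg A f U k) := by
  have h := injOf_inj (q := nq A f U) (K := omega) (A := A) unb_omega
    (fun j hj => by rw [ap_nq hf hU hj]; exact hf.1.ap_mem (sg_mem hf hU hj))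
    (fun j hj => by
      have h1 : FinM (sep omega (fun k => ∃ p, p ∈ sep (sym A) (fun p => ap f p =
          ap f (sg A f U j)) ∧ sg A f U k = p)) := by
        apply fin_bunion omega (fun k p => sg A f U k = p)
        · exact hf.2 _ (hf.1.ap_mem (sg_mem hf hU hj))
        · intro p _
          by_cases hex : ∃ k, k ∈ (omega : M) ∧ sg A f U k = p
          · obtain ⟨k1, hk1, e1⟩ := hex
            have hb := (bnd_spec hf (hU.2.1 u0 hU.1) emp_mem_omega).1
            apply fin_sub (nat_fin (succ_mem_omega (un_omega hb hk1)))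
            intro k hk
            rw [mem_sep] at hk
            rw [lt_succ_iff hk.1 (un_omega hb hk1)]
            rw [← sg_inj hf hU hk.1 hk1 (hk.2.trans e1.symm)]
            exact sub_un_right _ _
          · push Not at hex
            apply fin_sub fin_emp
            intro k hk
            rw [mem_sep] at hk
            exact absurd hk.2 (hex k hk.1)
      apply fin_sub h1
      intro k hk
      rw [mem_sep] at hk
      rw [mem_sep]
      refine ⟨hk.1, sg A f U k, ?_, rfl⟩
      rw [mem_sep]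
      refine ⟨sg_mem hf hU hk.1, ?_⟩
      rw [← ap_nq hf hU hk.1, ← ap_nq hf hU hj]
      exact hk.2)
  refine ⟨h.1, fun n hn => ?_⟩
  obtain ⟨k, hk, e⟩ := h.2 n hn
  exact ⟨k, hk, by rw [← ap_nq hf hU hk]; exact e⟩

/-- In ZF, a Dedekind-infinite set has no finite-to-one map from its permutations to itself. -/
theorem ded_inf_false (hf : FtoSym f A) (hu0 : Inj u0 omega A) : False := by
  apply tower_false (prod omega A |> pow) (sing u0) (fun U => Good A u0 U) (fun U => nu A f U)
  · intro z hz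
    rw [mem_sing] at hz
    rw [hz, mem_pow]
    exact hu0.fun.sub_prod
  · refine ⟨by simp, fun u hu => ?_, fun u v hu hv hne => ?_⟩
    · rw [mem_sing] at hu; rw [hu]; exact hu0
    · rw [mem_sing] at hu hv
      exact absurd (hu.trans hv.symm) hne
  · intro U _ hU
    have h := nu_spec hf hU
    have hdis : ∀ u, u ∈ U → ∀ m n, m ∈ (omega : M) → n ∈ (omega : M) →
        ap (nu A f U) m ≠ ap u n := by
      intro u hu m n hm hn e
      obtain ⟨k, hk, e'⟩ := h.2 m hm
      exact f_sg_ne hf hU hk hu hn (e'.symm.trans e)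
    refine ⟨?_, ?_, ?_, ?_, ?_⟩
    · rw [mem_pow]; exact h.1.fun.sub_prod
    · intro hmem
      exact hdis _ hmem emp emp emp_mem_omega emp_mem_omega rfl
    · rw [mem_ins]; left; exact hU.1
    · intro u hu
      rw [mem_ins] at hu
      rcases hu with hu | rfl
      · exact hU.2.1 u hu
      · exact h.1
    · intro u v hu hv hne m n hm hn e
      rw [mem_ins] at hu hv
      rcases hu with hu | rfl <;> rcases hv with hv | rfl
      · exact hU.2.2 u v hu hv hne m n hm hn e
      · exact hdis u hu n m hn hm e.symm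
      · exact hdis v hv m n hm hn e
      · exact hne rfl
  · intro C hne hC hch
    refine ⟨?_, ?_, ?_⟩
    · obtain ⟨c, hc⟩ := ne_emp_iff.1 hne
      rw [mem_sUn]
      exact ⟨c, hc, (hC c hc).2.1⟩
    · intro u hu
      rw [mem_sUn] at hu
      obtain ⟨c, hc, hu⟩ := hu
      exact (hC c hc).2.2.1 u hu
    · intro u v hu hv hne m n hm hn
      rw [mem_sUn] at hu hv
      obtain ⟨c, hc, hu⟩ := hu
      obtain ⟨d, hd, hv⟩ := hv
      rcases hch c d hc hd with h | h
      · exact (hC d hd).2.2.2 u v (h u hu) hv hne m n hm hn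
      · exact (hC c hc).2.2.2 u v hu (h v hv) hne m n hm hn

end

end Pool.Agent.H78.ZF
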