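import Mathlib.ModelTheory.Definability

/-!
First-order models of Zermelo-Fraenkel set theory, and the usual set-theoretic notions written
out in such a model `(M, E)`. Here `M` is an arbitrary type with a binary relation `E`, and
`E x y` is read as: `x` is an element of `y`. Each notion is a first-order formula over `(M, E)`.
-/

universe u

namespace Pool.Agent.H78.ZF

open Set

/-- The only symbol of the first-order language of set theory: a binary relation symbol. -/
inductive MemSymb : ℕ → Type
  | mem : MemSymb 2

/-- The first-order language of set theory: one binary relation symbol, no function symbols. -/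
def LSet : FirstOrder.Language.{0, 0} := ⟨fun _ => Empty, MemSymb⟩

/-- The `LSet`-structure on `M` that interprets the membership symbol by the relation `E`. -/
@[reducible]
def structOf {M : Type u} (E : M → M → Prop) : LSet.Structure M where
  funMap := fun f _ => nomatch f
  RelMap := fun {_} r v => match r, v with | MemSymb.mem, v => E (v 0) (v 1)

/-- `(M, E)` is a model of ZF (Zermelo-Fraenkel set theory without the choice principle).
The separation and replacement schemes range over the classes and class relations that are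
first-order definable over `(M, E)` with arbitrary parameters from `M`. -/
structure IsZFModel {M : Type u} (E : M → M → Prop) : Prop where
  extensionality : ∀ x y, (∀ z, E z x ↔ E z y) → x = y
  foundation : ∀ x, (∃ y, E y x) → ∃ y, E y x ∧ ∀ z, E z y → ¬ E z x
  pairing : ∀ x y, ∃ z, ∀ w, E w z ↔ w = x ∨ w = y
  union : ∀ x, ∃ u, ∀ w, E w u ↔ ∃ y, E y x ∧ E w y
  powerset : ∀ x, ∃ p, ∀ w, E w p ↔ ∀ z, E z w → E z x
  infinity : ∃ x, (∃ e, E e x ∧ ∀ z, ¬ E z e) ∧
    ∀ y, E y x → ∃ s, E s x ∧ ∀ z, E z s ↔ E z y ∨ z = y
  separation : ∀ s : Set M, @Set.Definable₁ M univ LSet (structOf E) s →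
    ∀ a, ∃ b, ∀ x, E x b ↔ E x a ∧ x ∈ s
  replacement : ∀ F : Set (M × M), @Set.Definable₂ M univ LSet (structOf E) F →
    ∀ a, (∀ x, E x a → ∃! y, (x, y) ∈ F) → ∃ b, ∀ y, E y b ↔ ∃ x, E x a ∧ (x, y) ∈ F

variable {M : Type u} (E : M → M → Prop)

/-- `z` is the unordered pair of `x` and `y`. -/
def IsUPair (z x y : M) : Prop := ∀ w, E w z ↔ w = x ∨ w = y

/-- `p` is the (Kuratowski) ordered pair of `x` and `y`. -/
def IsOPair (p x y : M) : Prop := ∃ a b, IsUPair E a x x ∧ IsUPair E b x y ∧ IsUPair E p a b

/-- `f` is a function with domain `a` and values in `b`, as a set of ordered pairs. -/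
def IsFun (f a b : M) : Prop :=
  (∀ p, E p f → ∃ x y, E x a ∧ E y b ∧ IsOPair E p x y) ∧
  ∀ x, E x a → ∃! y, ∃ p, IsOPair E p x y ∧ E p f

/-- `f` is an injective function from `a` to `b`. -/
def IsInj (f a b : M) : Prop :=
  IsFun E f a b ∧ ∀ x x' y p p', IsOPair E p x y → E p f → IsOPair E p' x' y → E p' f → x = x'

/-- `f` is a bijection from `a` to `b`. -/
def IsBij (f a b : M) : Prop := IsInj E f a b ∧ ∀ y, E y b → ∃ x p, IsOPair E p x y ∧ E p f

/-- `I` contains the empty set and is closed under the successor operation. -/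
def IsInductive (I : M) : Prop :=
  (∃ e, (∀ z, ¬ E z e) ∧ E e I) ∧ ∀ y, E y I → ∃ s, (∀ z, E z s ↔ E z y ∨ z = y) ∧ E s I

/-- `w` is the set `omega` of natural numbers: the least inductive set. -/
def IsOmega (w : M) : Prop := IsInductive E w ∧ ∀ I, IsInductive E I → ∀ x, E x w → E x I

/-- `P` is the power set of `a`. -/
def IsPowerset (P a : M) : Prop := ∀ w, E w P ↔ ∀ z, E z w → E z a

/-- `a` is finite: it is in bijection with a natural number. -/
def IsFiniteSet (a : M) : Prop := ∃ w n f, IsOmega E w ∧ E n w ∧ IsBij E f a n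

/-- `S` is the set of all bijections from `a` to `a`. -/
def IsSym (S a : M) : Prop := ∀ f, E f S ↔ IsBij E f a a

/-- `F` is a finite-to-one function from `s` to `a`: the preimage of every point is finite. -/
def IsFiniteToOne (F s a : M) : Prop :=
  IsFun E F s a ∧
  ∀ y, E y a → ∀ c, (∀ x, E x c ↔ E x s ∧ ∃ p, IsOPair E p x y ∧ E p F) → IsFiniteSet E c

end Pool.Agent.H78.ZF
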