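import Mathlib
import Pool.Agent.H78.ZF.Model

/-!
Automation for first-order definability with parameters, through type class inference.
-/

universe u

namespace Pool.Agent.H78.ZF

open Set

/-- A type with a fixed relation making it a model of ZF. -/
class ZFM (M : Type u) where
  E : M → M → Prop
  zf : IsZFModel E

variable {M : Type u} [ZFM M]

instance instStr : LSet.Structure M := structOf ZFM.E

instance instMem : Membership M M := ⟨fun y x => ZFM.E x y⟩

theorem mem_def (x y : M) : x ∈ y ↔ ZFM.E x y := Iff.rfl

/-- definable relation -/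
class DR {ι : Type} (P : (ι → M) → Prop) : Prop where
  out : (univ : Set M).Definable LSet {v | P v}

/-- definable function -/
class DF {ι : Type} (t : (ι → M) → M) : Prop where
  out : (univ : Set M).DefinableFun LSet t

variable {ι κ : Type}

instance DF.var (i : ι) : DF (M := M) (fun v => v i) := ⟨DefinableFun.proj LSet⟩

instance DF.const (c : M) : DF (M := M) (ι := ι) (fun _ => c) :=
  ⟨FirstOrder.Language.definableFun_const LSet ι (mem_univ c)⟩

instance DR.const (p : Prop) : DR (M := M) (ι := ι) (fun _ => p) := by
  constructor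
  by_cases h : p
  · convert (definable_univ (A := (univ : Set M)) (L := LSet) (α := ι)) using 1
    ext v; simp [h]
  · convert (definable_empty (A := (univ : Set M)) (L := LSet) (α := ι)) using 1
    ext v; simp [h]

instance (priority := low) DF.weaken (t : (ι → M) → M) (f : ι → κ) [h : DF t] :
    DF (fun v : κ → M => t (fun i => v (f i))) := by
  constructor
  have h1 := h.out
  have h2 := h1.preimage_comp (fun o : Option ι =>
      (match o with | none => none | some i => some (f i) : Option κ))
  exact h2

instance (priority := low) DR.weaken (P : (ι → M) → Prop) (f : ι → κ) [h : DR P] :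
    DR (fun v : κ → M => P (fun i => v (f i))) := by
  constructor
  have h1 := h.out
  have h2 := h1.preimage_comp f
  exact h2

instance DR.eq (s t : (ι → M) → M) [hs : DF s] [ht : DF t] : DR (fun v => s v = t v) :=
  ⟨hs.out.ofPred_eq ht.out⟩

/-- Substitution of definable functions in a definable relation. -/
theorem DR.subst {κ : Type} [Finite κ] (P : (κ → M) → Prop) [hP : DR P]
    (F : κ → (ι → M) → M) [hF : ∀ i, DF (F i)] : DR (fun v => P (fun i => F i v)) := by
  constructor
  have h2 : (univ : Set M).DefinableMap LSet (fun (v : ι → M) i => F i v) := by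
    intro i
    exact (hF i).out
  exact hP.out.preimage_map h2

instance DR.mem (s t : (ι → M) → M) [hs : DF s] [ht : DF t] : DR (fun v => s v ∈ t v) := by
  constructor
  have hF : (univ : Set M).DefinableMap LSet (fun v : ι → M => ![s v, t v]) := by
    intro i
    fin_cases i
    · exact hs.out
    · exact ht.out
  have h2 : (univ : Set M).Definable LSet {v : Fin 2 → M | v 0 ∈ v 1} := by
    refine ⟨FirstOrder.Language.Relations.formula₂ (L := FirstOrder.Language.withConstants LSet (univ : Set M)) (Sum.inl MemSymb.mem)
      (FirstOrder.Language.Term.var 0) (FirstOrder.Language.Term.var 1), ?_⟩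
    ext v
    simp [FirstOrder.Language.Formula.realize_rel₂]
    rfl
  exact h2.preimage_map hF

instance DR.not (P : (ι → M) → Prop) [h : DR P] : DR (fun v => ¬ P v) := ⟨h.out.compl⟩

instance DR.and (P Q : (ι → M) → Prop) [h : DR P] [h' : DR Q] : DR (fun v => P v ∧ Q v) :=
  ⟨h.out.inter h'.out⟩

instance DR.or (P Q : (ι → M) → Prop) [h : DR P] [h' : DR Q] : DR (fun v => P v ∨ Q v) :=
  ⟨h.out.union h'.out⟩

instance DR.imp (P Q : (ι → M) → Prop) [h : DR P] [h' : DR Q] : DR (fun v => P v → Q v) := by
  have := DR.or (fun v => ¬ P v) Q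
  simpa [imp_iff_not_or] using this

instance DR.iff (P Q : (ι → M) → Prop) [h : DR P] [h' : DR Q] : DR (fun v => P v ↔ Q v) := by
  have := DR.and (fun v => P v → Q v) (fun v => Q v → P v)
  simpa [iff_iff_implies_and_implies] using this

instance DR.ex (P : M → (ι → M) → Prop)
    [h : DR (ι := Option ι) (fun v => P (v none) (fun i => v (some i)))] :
    DR (fun v => ∃ x, P x v) := by
  constructor
  have h1 := h.out
  have h2 : (univ : Set M).Definable LSet
      {w : ι ⊕ Unit → M | P (w (Sum.inr ())) (fun i => w (Sum.inl i))} :=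
    h1.preimage_comp (fun o : Option ι =>
      (match o with | none => Sum.inr () | some i => Sum.inl i : ι ⊕ Unit))
  have h3 := h2.exists_of_finite
  convert h3 using 1
  ext v
  constructor
  · rintro ⟨x, hx⟩
    exact ⟨fun _ => x, by simpa using hx⟩
  · rintro ⟨u, hu⟩
    exact ⟨u (), by simpa using hu⟩

instance DR.all (P : M → (ι → M) → Prop)
    [h : DR (ι := Option ι) (fun v => P (v none) (fun i => v (some i)))] :
    DR (fun v => ∀ x, P x v) := by
  have h1 : DR (fun v : ι → M => ¬ ∃ x, ¬ P x v) := by
    have := DR.ex (fun x (v : ι → M) => ¬ P x v)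
    infer_instance
  simpa using h1

instance DR.exU (P : M → (ι → M) → Prop)
    [h : DR (ι := Option ι) (fun v => P (v none) (fun i => v (some i)))] :
    DR (fun v => ∃! x, P x v) := by
  have hw : DR (ι := Option (Option ι)) (fun v => P (v none) (fun i => v (some (some i)))) :=
    DR.weaken (fun w : Option ι → M => P (w none) (fun i => w (some i)))
      (fun o : Option ι => (match o with | none => none | some i => some (some i) :
        Option (Option ι)))
  have : DR (fun v => ∃ x, P x v ∧ ∀ y, P y v → y = x) := by infer_instance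
  exact this

/-- Unary definable class. -/
class D1 (P : M → Prop) : Prop where
  out : DR (fun v : Unit → M => P (v ()))

/-- Binary definable relation. -/
class D2 (P : M → M → Prop) : Prop where
  out : DR (fun v : Fin 2 → M => P (v 0) (v 1))

/-- Ternary definable relation. -/
class D3 (P : M → M → M → Prop) : Prop where
  out : DR (fun v : Fin 3 → M => P (v 0) (v 1) (v 2))

/-- Unary definable class function. -/
class F1 (F : M → M) : Prop where
  out : DF (fun v : Unit → M => F (v ()))

/-- Binary definable class function. -/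
class F2 (F : M → M → M) : Prop where
  out : DF (fun v : Fin 2 → M => F (v 0) (v 1))

theorem D1.comp (P : M → Prop) (s : (ι → M) → M) [h : D1 P] [hs : DF s] :
    DR (fun v => P (s v)) := by
  have := h.out
  exact DR.subst (fun v : Unit → M => P (v ())) (fun _ => s)

theorem D2.comp (P : M → M → Prop) (s t : (ι → M) → M) [h : D2 P] [hs : DF s] [ht : DF t] :
    DR (fun v => P (s v) (t v)) := by
  have := h.out
  have h2 : ∀ i : Fin 2, DF (![s, t] i) := by
    intro i; fin_cases i
    · exact hs
    · exact ht
  exact DR.subst (fun v : Fin 2 → M => P (v 0) (v 1)) ![s, t]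

theorem D3.comp (P : M → M → M → Prop) (s t r : (ι → M) → M) [h : D3 P] [hs : DF s] [ht : DF t]
    [hr : DF r] : DR (fun v => P (s v) (t v) (r v)) := by
  have := h.out
  have h2 : ∀ i : Fin 3, DF (![s, t, r] i) := by
    intro i; fin_cases i
    · exact hs
    · exact ht
    · exact hr
  exact DR.subst (fun v : Fin 3 → M => P (v 0) (v 1) (v 2)) ![s, t, r]

theorem DF_iff (t : (ι → M) → M) :
    DF t ↔ DR (ι := Option ι) (fun v => t (fun i => v (some i)) = v none) := by
  constructor
  · intro h
    exact ⟨h.out⟩
  · intro h
    exact ⟨h.out⟩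

theorem F1.comp (F : M → M) (s : (ι → M) → M) [h : F1 F] [hs : DF s] :
    DF (fun v => F (s v)) := by
  have h1 := h.out
  constructor
  exact DefinableFun.comp (g := fun v (_ : Unit) => s v) (fun _ => hs.out) h1.out

theorem F2.comp (F : M → M → M) (s t : (ι → M) → M) [h : F2 F] [hs : DF s] [ht : DF t] :
    DF (fun v => F (s v) (t v)) := by
  have h1 := h.out
  constructor
  have := DefinableFun.comp (g := fun v => ![s v, t v]) (f := fun v : Fin 2 → M => F (v 0) (v 1))
    (fun i => by
      fin_cases i
      · exact hs.out
      · exact ht.out) h1.out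
  exact this

attribute [instance low] D1.comp D2.comp D3.comp F1.comp F2.comp

theorem D1.mk' (P : M → Prop) [h : DR (fun v : Unit → M => P (v ()))] : D1 P := ⟨h⟩
theorem D2.mk' (P : M → M → Prop) [h : DR (fun v : Fin 2 → M => P (v 0) (v 1))] : D2 P := ⟨h⟩
theorem D3.mk' (P : M → M → M → Prop)
    [h : DR (fun v : Fin 3 → M => P (v 0) (v 1) (v 2))] : D3 P := ⟨h⟩
theorem F1.mk' (F : M → M) [h : DF (fun v : Unit → M => F (v ()))] : F1 F := ⟨h⟩
theorem F2.mk' (F : M → M → M) [h : DF (fun v : Fin 2 → M => F (v 0) (v 1))] : F2 F := ⟨h⟩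

attribute [instance low] D1.mk' D2.mk' D3.mk' F1.mk' F2.mk'

/-! ### Separation and replacement, restated -/

theorem exists_sep (P : M → Prop) [h : D1 P] (a : M) : ∃ b : M, ∀ x, x ∈ b ↔ x ∈ a ∧ P x := by
  have h1 : (univ : Set M).Definable₁ LSet {x | P x} := by
    have := DR.weaken (fun v : Unit → M => P (v ())) (fun _ => (0 : Fin 1)) (h := h.out)
    exact this.out
  exact ZFM.zf.separation _ h1 a

theorem exists_repl (R : M → M → Prop) [h : D2 R] (a : M) (hR : ∀ x, x ∈ a → ∃! y, R x y) :
    ∃ b : M, ∀ y, y ∈ b ↔ ∃ x, x ∈ a ∧ R x y := by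
  have h1 : (univ : Set M).Definable₂ LSet {p : M × M | R p.1 p.2} := h.out.out
  exact ZFM.zf.replacement _ h1 a hR

end Pool.Agent.H78.ZF
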