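import Pool.Agent.H78.ZF.Omega

universe u

namespace Pool.Agent.H78.ZF

open Set

variable {M : Type u} [ZFM M] {ι : Type}

/-- Finite sets of the model. -/
def FinM (a : M) : Prop := ∃ n, n ∈ (omega : M) ∧ ∃ f, Bij f a n

instance DR.FinM (s : (ι → M) → M) [DF s] : DR (fun v => FinM (s v)) := by
  unfold ZF.FinM
  infer_instance

theorem fin_emp : FinM (emp : M) := by
  refine ⟨emp, emp_mem_omega, emp, ?_⟩
  rw [bij_iff]
  refine ⟨⟨fun p hp => absurd hp (not_mem_emp p), fun x hx => absurd hx (not_mem_emp x)⟩,
    fun x _ hx => absurd hx (not_mem_emp x), fun x hx => absurd hx (not_mem_emp x)⟩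

theorem ins_eq_self {x a : M} (h : a ∈ x) : ins x a = x := ext fun z => by
  rw [mem_ins]
  exact ⟨fun h' => h'.elim id (fun e => by rw [e]; exact h), Or.inl⟩

theorem fin_ins {x : M} (h : FinM x) (a : M) : FinM (ins x a) := by
  by_cases ha : a ∈ x
  · rw [ins_eq_self ha]; exact h
  obtain ⟨n, hn, f, hf⟩ := h
  refine ⟨succ n, succ_mem_omega hn, ins f (opair a n), ?_⟩
  rw [bij_iff] at hf
  obtain ⟨h1, h2, h3⟩ := hf
  have key : ∀ x' y, opair x' y ∈ ins f (opair a n) ↔ (x' ∈ x ∧ y = ap f x') ∨
      (x' = a ∧ y = n) := by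
    intro x' y
    rw [mem_ins, h1.opair_iff, opair_eq_iff]
  unfold Bij Inj Fun
  refine ⟨⟨⟨?_, ?_⟩, ?_⟩, ?_⟩
  · intro p hp
    rw [mem_ins] at hp
    rcases hp with hp | hp
    · obtain ⟨u, hu, w, hw, rfl⟩ := h1.1 p hp
      exact ⟨u, by rw [mem_ins]; left; exact hu, w, by rw [mem_succ]; left; exact hw, rfl⟩
    · exact ⟨a, by simp, n, by simp, hp⟩
  · intro u hu
    rw [mem_ins] at hu
    rcases hu with hu | hu
    · refine ⟨ap f u, ?_, ?_⟩
      · show opair u (ap f u) ∈ _
        rw [key]; left; exact ⟨hu, rfl⟩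
      · intro y hy
        rw [key] at hy
        rcases hy with hy | hy
        · exact hy.2
        · rw [hy.1] at hu; exact absurd hu ha
    · refine ⟨n, ?_, ?_⟩
      · show opair u n ∈ _
        rw [key]; right; exact ⟨hu, rfl⟩
      · intro y hy
        rw [key] at hy
        rcases hy with hy | hy
        · rw [hu] at hy; exact absurd hy.1 ha
        · exact hy.2
  · intro u u' y hu hu'
    rw [key] at hu hu'
    rcases hu with hu | hu <;> rcases hu' with hu' | hu'
    · exact h2 u u' hu.1 hu'.1 (hu.2.symm.trans hu'.2)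
    · exfalso
      have := h1.ap_mem hu.1
      rw [← hu.2, hu'.2] at this
      exact not_mem_self n this
    · exfalso
      have := h1.ap_mem hu'.1
      rw [← hu'.2, hu.2] at this
      exact not_mem_self n this
    · rw [hu.1, hu'.1]
  · intro y hy
    rw [mem_succ] at hy
    rcases hy with hy | hy
    · obtain ⟨u, hu, e⟩ := h3 y hy
      exact ⟨u, by rw [key]; left; exact ⟨hu, e.symm⟩⟩
    · exact ⟨a, by rw [key]; right; exact ⟨rfl, hy⟩⟩

theorem fin_induction (P : M → Prop) [D1 P] (h0 : P emp)
    (hs : ∀ x a, FinM x → a ∉ x → P x → P (ins x a)) : ∀ x, FinM x → P x := by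
  have main : ∀ n, n ∈ (omega : M) → ∀ x f, Bij f x n → P x := by
    apply omega_induction (fun n => ∀ x f, Bij f x n → P x)
    · intro x f hf
      have : x = emp := eq_emp fun z hz => not_mem_emp _ (hf.fun.ap_mem hz)
      rw [this]; exact h0
    · intro n hn ih x f hf
      have hf' := bij_iff.1 hf
      obtain ⟨h1, h2, h3⟩ := hf'
      obtain ⟨a, ha, hfa⟩ := h3 n (by simp)
      have hx : x = ins (sep x (fun z => z ≠ a)) a := by
        apply ext; intro z
        rw [mem_ins, mem_sep]
        by_cases hz : z = a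
        · rw [hz]; simp [ha]
        · simp [hz]
      have hb : Bij (sep f (fun p => p ≠ opair a n)) (sep x (fun z => z ≠ a)) n := by
        have key : ∀ u y, opair u y ∈ sep f (fun p => p ≠ opair a n) ↔ u ∈ x ∧ u ≠ a ∧
            y = ap f u := by
          intro u y
          rw [mem_sep, h1.opair_iff, ne_eq, opair_eq_iff]
          constructor
          · rintro ⟨⟨hu, e⟩, h⟩
            refine ⟨hu, fun hua => h ⟨hua, ?_⟩, e⟩
            rw [e, hua, hfa]
          · rintro ⟨hu, hua, e⟩
            exact ⟨⟨hu, e⟩, fun h => hua h.1⟩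
        have hval : ∀ u, u ∈ x → u ≠ a → ap f u ∈ n := by
          intro u hu hua
          have := h1.ap_mem hu
          rw [mem_succ] at this
          rcases this with h | h
          · exact h
          · exact absurd (h2 u a hu ha (h.trans hfa.symm)) hua
        unfold Bij Inj Fun
        refine ⟨⟨⟨?_, ?_⟩, ?_⟩, ?_⟩
        · intro p hp
          have hp' := hp
          rw [mem_sep] at hp
          obtain ⟨u, hu, w, hw, rfl⟩ := h1.1 p hp.1
          rw [key] at hp'
          refine ⟨u, by rw [mem_sep]; exact ⟨hp'.1, hp'.2.1⟩, w, ?_, rfl⟩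
          rw [hp'.2.2]
          exact hval u hp'.1 hp'.2.1
        · intro u hu
          rw [mem_sep] at hu
          refine ⟨ap f u, ?_, ?_⟩
          · show opair u (ap f u) ∈ _
            rw [key]; exact ⟨hu.1, hu.2, rfl⟩
          · intro y hy
            rw [key] at hy
            exact hy.2.2
        · intro u u' y hu hu'
          rw [key] at hu hu'
          exact h2 u u' hu.1 hu'.1 (hu.2.2.symm.trans hu'.2.2)
        · intro y hy
          obtain ⟨u, hu, e⟩ := h3 y (by rw [mem_succ]; left; exact hy)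
          refine ⟨u, ?_⟩
          rw [key]
          refine ⟨hu, fun hua => ?_, e.symm⟩
          rw [hua, hfa] at e
          rw [← e] at hy
          exact not_mem_self n hy
      have hP := ih _ _ hb
      rw [hx]
      exact hs _ a ⟨n, hn, _, hb⟩ (by rw [mem_sep]; simp) hP
  rintro x ⟨n, hn, f, hf⟩
  exact main n hn x f hf

theorem fin_sub {x y : M} (hx : FinM x) (h : y ⊆ x) : FinM y := by
  apply fin_induction (fun x => ∀ y, y ⊆ x → FinM y) _ _ x hx y h
  · intro y hy
    have : y = emp := eq_emp fun z hz => not_mem_emp z (hy z hz)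
    rw [this]; exact fin_emp
  · intro x a _ _ ih y hy
    have h1 : FinM (sep y (fun z => z ≠ a)) := by
      apply ih
      intro z hz
      rw [mem_sep] at hz
      have := hy z hz.1
      rw [mem_ins] at this
      exact this.resolve_right hz.2
    by_cases ha : a ∈ y
    · have : y = ins (sep y (fun z => z ≠ a)) a := by
        apply ext; intro z
        rw [mem_ins, mem_sep]
        by_cases hz : z = a
        · rw [hz]; simp [ha]
        · simp [hz]
      rw [this]; exact fin_ins h1 a
    · have : y = sep y (fun z => z ≠ a) := by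
        apply ext; intro z
        rw [mem_sep]
        exact ⟨fun hz => ⟨hz, fun e => ha (by rw [← e]; exact hz)⟩, fun h => h.1⟩
      rw [this]; exact h1

theorem fin_sing (a : M) : FinM (sing a) := by
  have : sing a = ins emp a := ext fun z => by simp
  rw [this]; exact fin_ins fin_emp a

theorem fin_un {x y : M} (hx : FinM x) (hy : FinM y) : FinM (un x y) := by
  apply fin_induction (fun y => FinM (un x y)) _ _ y hy
  · have : un x emp = x := ext fun z => by simp
    rw [this]; exact hx
  · intro y a _ _ ih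
    have : un x (ins y a) = ins (un x y) a := ext fun z => by
      simp only [mem_un, mem_ins]; tauto
    rw [this]; exact fin_ins ih a

theorem fin_upair (a b : M) : FinM (upair a b) := by
  have : upair a b = ins (sing a) b := ext fun z => by simp
  rw [this]; exact fin_ins (fin_sing a) b

/-- A finite union of finite sets is finite. -/
theorem fin_bunion (K : M) (R : M → M → Prop) [D2 R] {F : M} (hF : FinM F)
    (h : ∀ y, y ∈ F → FinM (sep K (fun x => R x y))) :
    FinM (sep K (fun x => ∃ y, y ∈ F ∧ R x y)) := by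
  apply fin_induction (fun F => (∀ y, y ∈ F → FinM (sep K (fun x => R x y))) →
    FinM (sep K (fun x => ∃ y, y ∈ F ∧ R x y))) _ _ F hF h
  · intro _
    have : sep K (fun x => ∃ y, y ∈ (emp : M) ∧ R x y) = emp := by
      apply eq_emp; intro z hz
      rw [mem_sep] at hz
      obtain ⟨_, y, hy, _⟩ := hz
      exact not_mem_emp y hy
    rw [this]; exact fin_emp
  · intro F a _ _ ih h
    have h1 := ih (fun y hy => h y (by rw [mem_ins]; left; exact hy))
    have h2 := h a (by simp)
    apply fin_sub (fin_un h1 h2)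
    intro z hz
    rw [mem_sep] at hz
    rw [mem_un, mem_sep, mem_sep]
    obtain ⟨hz1, y, hy, hR⟩ := hz
    rw [mem_ins] at hy
    rcases hy with hy | rfl
    · left; exact ⟨hz1, y, hy, hR⟩
    · right; exact ⟨hz1, hR⟩

theorem nat_fin {n : M} (hn : n ∈ (omega : M)) : FinM n := by
  apply omega_induction (fun n => FinM n) fin_emp _ n hn
  intro n _ ih
  exact fin_ins ih n

/-- Finitely many bounded sets of natural numbers have a common bound. -/
theorem fin_bounded (R : M → M → Prop) [D2 R] {F : M} (hF : FinM F)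
    (h : ∀ y, y ∈ F → ∃ b, b ∈ (omega : M) ∧ ∀ k, k ∈ (omega : M) → R y k → k ∈ b) :
    ∃ b, b ∈ (omega : M) ∧ ∀ y, y ∈ F → ∀ k, k ∈ (omega : M) → R y k → k ∈ b := by
  apply fin_induction (fun F => (∀ y, y ∈ F → ∃ b, b ∈ (omega : M) ∧
    ∀ k, k ∈ (omega : M) → R y k → k ∈ b) →
    ∃ b, b ∈ (omega : M) ∧ ∀ y, y ∈ F → ∀ k, k ∈ (omega : M) → R y k → k ∈ b) _ _ F hF h
  · intro _
    exact ⟨emp, emp_mem_omega, fun y hy => absurd hy (not_mem_emp y)⟩
  · intro F a _ _ ih h
    obtain ⟨b, hb, h1⟩ := ih (fun y hy => h y (by rw [mem_ins]; left; exact hy))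
    obtain ⟨c, hc, h2⟩ := h a (by simp)
    refine ⟨un b c, un_omega hb hc, fun y hy k hk hR => ?_⟩
    rw [mem_ins] at hy
    rw [mem_un]
    rcases hy with hy | rfl
    · left; exact h1 y hy k hk hR
    · right; exact h2 k hk hR

/-- A finite set of natural numbers is bounded. -/
theorem fin_bdd {F : M} (hF : FinM F) (h : F ⊆ omega) :
    ∃ b, b ∈ (omega : M) ∧ ∀ k, k ∈ F → k ∈ b := by
  obtain ⟨b, hb, h1⟩ := fin_bounded (fun y k => k = y) hF (fun y hy => ⟨succ y,
    succ_mem_omega (h y hy), fun k _ e => by rw [e]; simp⟩)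
  exact ⟨b, hb, fun k hk => h1 k hk k (h k hk) rfl⟩

theorem infinite_unbounded {K : M} (hK : K ⊆ omega) (h : ¬ FinM K) {n : M}
    (hn : n ∈ (omega : M)) : ∃ k, k ∈ K ∧ n ⊆ k := by
  by_contra hc
  push Not at hc
  apply h
  apply fin_sub (nat_fin hn)
  intro k hk
  by_contra hkn
  exact hc k hk ((le_or_lt hn (hK k hk)).resolve_right hkn)

theorem unbounded_infinite {K : M} (hK : K ⊆ omega)
    (h : ∀ n, n ∈ (omega : M) → ∃ k, k ∈ K ∧ n ⊆ k) : ¬ FinM K := by
  intro hF
  obtain ⟨b, hb, h1⟩ := fin_bdd hF hK
  obtain ⟨k, hk, h2⟩ := h b hb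
  exact not_mem_self k (h2 k (h1 k hk))

theorem fin_pow_nat {n : M} (hn : n ∈ (omega : M)) : FinM (pow n) := by
  apply omega_induction (fun n => FinM (pow n)) _ _ n hn
  · have : pow (emp : M) = sing emp := ext fun z => by
      rw [mem_pow, mem_sing]
      constructor
      · intro h; exact eq_emp fun w hw => not_mem_emp w (h w hw)
      · rintro rfl; exact sub_refl _
    rw [this]; exact fin_sing _
  · intro n hn ih
    have h1 : FinM (sep (pow (succ n)) (fun z => ∃ y, y ∈ pow n ∧ z = ins y n)) := by
      apply fin_bunion (pow (succ n)) (fun z y => z = ins y n) ih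
      intro y _
      apply fin_sub (fin_sing (ins y n))
      intro z hz
      rw [mem_sep] at hz
      rw [mem_sing]; exact hz.2
    apply fin_sub (fin_un ih h1)
    intro z hz
    rw [mem_un, mem_sep]
    by_cases hnz : n ∈ z
    · right
      refine ⟨hz, sep z (fun w => w ≠ n), ?_, ?_⟩
      · rw [mem_pow]
        intro w hw
        rw [mem_sep] at hw
        rw [mem_pow] at hz
        have := hz w hw.1
        rw [mem_succ] at this
        exact this.resolve_right hw.2
      · apply ext; intro w
        rw [mem_ins, mem_sep]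
        by_cases hw : w = n
        · rw [hw]; simp [hnz]
        · simp [hw]
    · left
      rw [mem_pow] at hz ⊢
      intro w hw
      have := hz w hw
      rw [mem_succ] at this
      exact this.resolve_right (fun e => hnz (by rw [← e]; exact hw))

/-- A finite nonempty set has a least element with respect to a linear order. -/
theorem fin_least (A : M) (lt : M → M → Prop) [D2 lt]
    (htr : ∀ x y z, x ∈ A → y ∈ A → z ∈ A → lt x y → lt y z → lt x z)
    (htot : ∀ x y, x ∈ A → y ∈ A → x = y ∨ lt x y ∨ lt y x)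
    {F : M} (hF : FinM F) (hFA : F ⊆ A) (hne : F ≠ emp) :
    ∃ x, x ∈ F ∧ ∀ y, y ∈ F → x = y ∨ lt x y := by
  apply fin_induction (fun F => F ⊆ A → F ≠ emp →
    ∃ x, x ∈ F ∧ ∀ y, y ∈ F → x = y ∨ lt x y) _ _ F hF hFA hne
  · intro _ h; exact absurd rfl h
  · intro F a _ _ ih hFA _
    have haA : a ∈ A := hFA a (by simp)
    have hFA' : F ⊆ A := fun z hz => hFA z (by rw [mem_ins]; left; exact hz)
    by_cases hF0 : F = emp
    · refine ⟨a, by simp, fun y hy => ?_⟩
      rw [hF0, mem_ins] at hy
      rcases hy with hy | hy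
      · exact absurd hy (not_mem_emp y)
      · left; exact hy.symm
    · obtain ⟨x, hx, h⟩ := ih hFA' hF0
      rcases htot x a (hFA' x hx) haA with h1 | h1 | h1
      · refine ⟨x, by rw [mem_ins]; left; exact hx, fun y hy => ?_⟩
        rw [mem_ins] at hy
        rcases hy with hy | hy
        · exact h y hy
        · left; rw [h1, hy]
      · refine ⟨x, by rw [mem_ins]; left; exact hx, fun y hy => ?_⟩
        rw [mem_ins] at hy
        rcases hy with hy | hy
        · exact h y hy
        · right; rw [hy]; exact h1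
      · refine ⟨a, by simp, fun y hy => ?_⟩
        rw [mem_ins] at hy
        rcases hy with hy | hy
        · right
          rcases h y hy with h2 | h2
          · rw [← h2]; exact h1
          · exact htr a x y haA (hFA' x hx) (hFA' y hy) h1 h2
        · left; exact hy.symm

end Pool.Agent.H78.ZF
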