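import Pool.Agent.H78.ZF.Reals

universe u

namespace Pool.Agent.H78.ZF

open Set

set_option synthInstance.maxSize 20000

variable {M : Type u} [ZFM M] {ι : Type}

section
variable {g A f : M}

/-- In a Dedekind-finite set of reals all of whose permutations map finite-to-one to it, a
finite-to-one class function without fixed points has finite domain. -/
theorem fin_of_no_fixed (hg : Inj g A (pow omega)) (hD : ¬ DInf A) (hf : FtoSym f A)
    (φ : M → M) [F1 φ] {X : M} (hX : X ⊆ A) (hφA : ∀ x, x ∈ X → φ x ∈ A)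
    (hφ : ∀ x, x ∈ X → φ x ≠ x) (hfin : ∀ y, y ∈ A → FinM (sep X (fun x => φ x = y))) :
    FinM X := by
  by_contra hinf
  obtain ⟨x0, hx0, hlim⟩ := exists_limit hg hD hX hinf
  -- the pieces
  set Xk : M → M := fun k => sep X (fun x => x ≠ x0 ∧ dl g x0 x = k) with hXk
  have iXk : F1 Xk := by rw [hXk]; infer_instance
  have mXk : ∀ k x, x ∈ Xk k ↔ x ∈ X ∧ x ≠ x0 ∧ dl g x0 x = k := by
    intro k x; rw [hXk]; simp only [mem_sep]
  set nk : M → M := fun k => least (fun n => ∃ x, x ∈ Xk k ∧ dl g x (φ x) = n) with hnk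
  have ink : F1 nk := by rw [hnk]; infer_instance
  set Yk : M → M := fun k => sep (Xk k) (fun x => dl g x (φ x) = nk k ∧
    (nk k ∈ ap g x ↔ ∃ x', x' ∈ Xk k ∧ dl g x' (φ x') = nk k ∧ nk k ∈ ap g x')) with hYk
  have iYk : F1 Yk := by rw [hYk]; infer_instance
  have mYk : ∀ k x, x ∈ Yk k ↔ x ∈ Xk k ∧ dl g x (φ x) = nk k ∧
    (nk k ∈ ap g x ↔ ∃ x', x' ∈ Xk k ∧ dl g x' (φ x') = nk k ∧ nk k ∈ ap g x') := by
    intro k x; rw [hYk]; simp only [mem_sep]
  -- the matching
  set mm : M → M → M → Prop := fun k x y =>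
    (x ∈ Yk k ∧ y = φ x ∧ ∀ z, z ∈ Yk k → φ z = φ x → x = z ∨ Lx g x z) ∨
    (y ∈ Yk k ∧ x = φ y ∧ ∀ z, z ∈ Yk k → φ z = φ y → y = z ∨ Lx g y z) with hmm
  have imm : D3 mm := by rw [hmm]; infer_instance
  have hYX : ∀ k x, x ∈ Yk k → x ∈ X := by
    intro k x hx
    rw [mYk, mXk] at hx
    exact hx.1.1
  have mmA : ∀ k x y, mm k x y → x ∈ A := by
    intro k x y h
    rcases h with h | h
    · exact hX x (hYX k x h.1)
    · rw [h.2.1]; exact hφA y (hYX k y h.1)
  have mms : ∀ k x y, mm k x y → mm k y x := by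
    intro k x y h
    exact h.symm
  have hbits : ∀ k x y, x ∈ Yk k → y ∈ Yk k → x = φ y → False := by
    intro k x y hx hy e
    have hx' := (mYk k x).1 hx
    have hy' := (mYk k y).1 hy
    have h1 : nk k ∈ ap g x ↔ nk k ∈ ap g y := by rw [hx'.2.2, hy'.2.2]
    have h2 := (dl_spec hg (hX y (hYX k y hy)) (hφA y (hYX k y hy))
      (hφ y (hYX k y hy)).symm).2.1
    rw [hy'.2.1, ← e] at h2
    exact h2 h1.symm
  have mmf : ∀ k x y z, mm k x y → mm k x z → y = z := by
    intro k x y z h h'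
    rcases h with h | h <;> rcases h' with h' | h'
    · rw [h.2.1, h'.2.1]
    · exact (hbits k x z h.1 h'.1 h'.2.1).elim
    · exact (hbits k x y h'.1 h.1 h.2.1).elim
    · have e : φ z = φ y := by rw [← h.2.1, ← h'.2.1]
      rcases h.2.2 z h'.1 e with h1 | h1
      · exact h1
      · rcases h'.2.2 y h.1 e.symm with h2 | h2
        · exact h2.symm
        · exact absurd (lx_trans h1 h2) lx_irrefl
  set K : M := sep omega (fun k => ∃ x, x ∈ Xk k) with hK
  have mK : ∀ k, k ∈ K ↔ k ∈ (omega : M) ∧ ∃ x, x ∈ Xk k := by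
    intro k; rw [hK, mem_sep]
  have hKunb : Unb K := by
    refine ⟨fun k hk => ((mK k).1 hk).1, fun n hn => ?_⟩
    obtain ⟨y, hy, hne, hag⟩ := hlim n hn
    have h1 := dl_spec hg (hX x0 hx0) (hX y hy) hne.symm
    refine ⟨dl g x0 y, ?_, dl_ge hg (hX x0 hx0) (hX y hy) hne.symm hn hag⟩
    rw [mK]
    refine ⟨h1.1, y, ?_⟩
    rw [mXk]
    exact ⟨hy, hne, rfl⟩
  have hYne : ∀ k, k ∈ K → ∃ x, x ∈ Yk k := by
    intro k hk
    rw [mK] at hk
    obtain ⟨_, x, hx⟩ := hk
    have hx' := (mXk k x).1 hx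
    have hd := dl_spec hg (hX x hx'.1) (hφA x hx'.1) (hφ x hx'.1).symm
    have hn := least_spec (fun n => ∃ x, x ∈ Xk k ∧ dl g x (φ x) = n) ⟨_, hd.1, x, hx, rfl⟩
    obtain ⟨x1, hx1, e1⟩ := hn.2.1
    by_cases hex : ∃ x', x' ∈ Xk k ∧ dl g x' (φ x') = nk k ∧ nk k ∈ ap g x'
    · obtain ⟨x', hx', e', hb⟩ := hex
      exact ⟨x', (mYk k x').2 ⟨hx', e', fun _ => ⟨x', hx', e', hb⟩, fun _ => hb⟩⟩
    · refine ⟨x1, (mYk k x1).2 ⟨hx1, e1, fun hb => ⟨x1, hx1, e1, hb⟩, fun h => absurd h hex⟩⟩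
  have hmatch : ∀ k, k ∈ K → ∃ x, x ∈ Yk k ∧ mm k x (φ x) := by
    intro k hk
    obtain ⟨x, hx⟩ := hYne k hk
    have hF : FinM (sep (Yk k) (fun z => φ z = φ x)) := by
      apply fin_sub (hfin (φ x) (hφA x (hYX k x hx)))
      intro z hz
      rw [mem_sep] at hz ⊢
      exact ⟨hYX k z hz.1, hz.2⟩
    obtain ⟨w, hw, hw'⟩ := lx_least hg hF (fun z hz => by
        rw [mem_sep] at hz
        exact hX z (hYX k z hz.1)) (ne_emp_iff.2 ⟨x, by rw [mem_sep]; exact ⟨hx, rfl⟩⟩)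
    rw [mem_sep] at hw
    refine ⟨w, hw.1, Or.inl ⟨hw.1, rfl, fun z hz e => hw' z ?_⟩⟩
    rw [mem_sep]
    exact ⟨hz, e.trans hw.2⟩
  -- the permutations
  set τ : M → M := fun k => invol A (fun x y => mm k x y) with hτ
  have iτ : F1 τ := by rw [hτ]; infer_instance
  have hτmem : ∀ k, τ k ∈ sym A := by
    intro k
    rw [mem_sym]
    exact invol_bij (mmA k) (mms k) (mmf k)
  have hτap : ∀ k x y, mm k x y → ap (τ k) x = y := fun k x y h =>
    ap_invol_of (mmA k) (mms k) (mmf k) h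
  have hτap' : ∀ k x, x ∈ A → (∀ y, ¬ mm k x y) → ap (τ k) x = x := fun k x hx h =>
    ap_invol_of_not (mmA k) (mms k) (mmf k) hx h
  have hτfib : ∀ p, FinM (sep K (fun k => τ k = p)) := by
    intro p
    by_cases hex : ∃ k, k ∈ K ∧ τ k = p
    · obtain ⟨k1, hk1, e1⟩ := hex
      obtain ⟨x1, hx1, hm1⟩ := hmatch k1 hk1
      apply fin_sub (fin_upair k1 (dl g x0 (φ x1)))
      intro k hk
      rw [mem_sep] at hk
      rw [mem_upair]
      have h1 : ap (τ k) x1 = φ x1 := by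
        rw [hk.2, ← e1]
        exact hτap k1 _ _ hm1
      have h2 : ∃ y, mm k x1 y := by
        by_contra hc
        push Not at hc
        rw [hτap' k x1 (hX x1 (hYX k1 x1 hx1)) hc] at h1
        exact hφ x1 (hYX k1 x1 hx1) h1.symm
      obtain ⟨y, hy⟩ := h2
      have h3 := hτap k _ _ hy
      rw [h1] at h3
      rw [← h3] at hy
      rcases hy with hy | hy
      · left
        have h4 := (mXk k x1).1 ((mYk k x1).1 hy.1).1
        have h5 := (mXk k1 x1).1 ((mYk k1 x1).1 hx1).1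
        rw [← h4.2.2, ← h5.2.2]
      · right
        have h4 := (mXk k (φ x1)).1 ((mYk k (φ x1)).1 hy.1).1
        exact h4.2.2.symm
    · push Not at hex
      apply fin_sub fin_emp
      intro k hk
      rw [mem_sep] at hk
      exact absurd hk.2 (hex k hk.1)
  set q : M := mkf K A (fun k => ap f (τ k)) with hq
  have hqap : ∀ k, k ∈ K → ap q k = ap f (τ k) := by
    intro k hk
    rw [hq]
    exact ap_mkf (fun k _ => hf.1.ap_mem (hτmem k)) hk
  apply hD
  have h := injOf_inj (q := q) (K := K) (A := A) hKunb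
    (fun k hk => by rw [hqap k hk]; exact hf.1.ap_mem (hτmem k))
    (fun j hj => by
      have h1 : FinM (sep K (fun k => ∃ p, p ∈ sep (sym A) (fun p => ap f p =
          ap f (τ j)) ∧ τ k = p)) := by
        apply fin_bunion K (fun k p => τ k = p) (hf.2 _ (hf.1.ap_mem (hτmem j)))
        intro p _
        exact hτfib p
      apply fin_sub h1
      intro k hk
      rw [mem_sep] at hk
      rw [mem_sep]
      refine ⟨hk.1, τ k, ?_, rfl⟩
      rw [mem_sep]
      refine ⟨hτmem k, ?_⟩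
      rw [← hqap k hk.1, ← hqap j hj]
      exact hk.2)
  exact ⟨_, h.1⟩

/-- The transposition of `e` and `x`. -/
noncomputable def tr (A e x : M) : M :=
  invol A (fun u v => (u = e ∧ v = x) ∨ (u = x ∧ v = e))

instance DF.tr (A e x : (ι → M) → M) [DF A] [DF e] [DF x] :
    DF (fun v => tr (A v) (e v) (x v)) := by
  unfold ZF.tr
  infer_instance

theorem tr_spec {e x : M} (he : e ∈ A) (hx : x ∈ A) :
    tr A e x ∈ sym A ∧ ap (tr A e x) e = x ∧ ap (tr A e x) x = e := by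
  have h1 : ∀ u v, ((u = e ∧ v = x) ∨ (u = x ∧ v = e)) → u ∈ A := by
    rintro u v (⟨rfl, _⟩ | ⟨rfl, _⟩)
    · exact he
    · exact hx
  have h2 : ∀ u v, ((u = e ∧ v = x) ∨ (u = x ∧ v = e)) → ((v = e ∧ u = x) ∨ (v = x ∧ u = e)) := by
    rintro u v (⟨rfl, rfl⟩ | ⟨rfl, rfl⟩)
    · right; exact ⟨rfl, rfl⟩
    · left; exact ⟨rfl, rfl⟩
  have h3 : ∀ u v w, ((u = e ∧ v = x) ∨ (u = x ∧ v = e)) → ((u = e ∧ w = x) ∨ (u = x ∧ w = e)) →
      v = w := by
    rintro u v w (⟨rfl, rfl⟩ | ⟨rfl, rfl⟩) (⟨h, rfl⟩ | ⟨h, rfl⟩)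
    · rfl
    · exact h.symm
    · exact h.symm
    · rfl
  refine ⟨?_, ?_, ?_⟩
  · rw [mem_sym]; exact invol_bij h1 h2 h3
  · exact ap_invol_of h1 h2 h3 (Or.inl ⟨rfl, rfl⟩)
  · exact ap_invol_of h1 h2 h3 (Or.inr ⟨rfl, rfl⟩)

/-- The main theorem inside a model. -/
theorem main (hinf : ¬ FinM A) (hg : Inj g A (pow omega)) (hf : FtoSym f A) : False := by
  by_cases hD : DInf A
  · obtain ⟨u, hu⟩ := hD
    exact ded_inf_false hf hu
  -- the exceptional sets
  set Xe : M → M := fun e => sep A (fun x => x ≠ e ∧ ap f (tr A e x) ≠ x) with hXe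
  have iXe : F1 Xe := by rw [hXe]; infer_instance
  have mXe : ∀ e x, x ∈ Xe e ↔ x ∈ A ∧ x ≠ e ∧ ap f (tr A e x) ≠ x := by
    intro e x; rw [hXe]; simp only [mem_sep]
  have hXfin : ∀ e, e ∈ A → FinM (Xe e) := by
    intro e he
    apply fin_of_no_fixed hg hD hf (fun x => ap f (tr A e x))
    · intro x hx; exact ((mXe e x).1 hx).1
    · intro x hx
      exact hf.1.ap_mem (tr_spec he ((mXe e x).1 hx).1).1
    · intro x hx; exact ((mXe e x).1 hx).2.2
    · intro y hy
      have h1 : FinM (sep (Xe e) (fun x => ∃ p, p ∈ sep (sym A) (fun p => ap f p = y) ∧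
          tr A e x = p)) := by
        apply fin_bunion (Xe e) (fun x p => tr A e x = p) (hf.2 y hy)
        intro p _
        by_cases hex : ∃ x, x ∈ Xe e ∧ tr A e x = p
        · obtain ⟨x, hx, e1⟩ := hex
          apply fin_sub (fin_sing x)
          intro z hz
          rw [mem_sep] at hz
          rw [mem_sing]
          rw [← (tr_spec he ((mXe e z).1 hz.1).1).2.1, hz.2, ← e1,
            (tr_spec he ((mXe e x).1 hx).1).2.1]
        · push Not at hex
          apply fin_sub fin_emp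
          intro z hz
          rw [mem_sep] at hz
          exact absurd hz.2 (hex z hz.1)
      apply fin_sub h1
      intro x hx
      rw [mem_sep] at hx
      rw [mem_sep]
      refine ⟨hx.1, tr A e x, ?_, rfl⟩
      rw [mem_sep]
      exact ⟨(tr_spec he ((mXe e x).1 hx.1).1).1, hx.2⟩
  obtain ⟨x0, hx0, hlim⟩ := exists_limit hg hD (sub_refl A) hinf
  -- the rank function
  have hex : ∀ e, e ∈ A → ∃ b, b ∈ (omega : M) ∧ ∀ x, x ∈ Xe e → x ≠ x0 → dl g x0 x ∈ b := by
    intro e he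
    obtain ⟨b, hb, h⟩ := fin_bounded (fun x k => x ≠ x0 ∧ dl g x0 x = k) (hXfin e he) (by
      intro x hx
      by_cases hx' : x = x0
      · exact ⟨emp, emp_mem_omega, fun k _ h => absurd hx' h.1⟩
      · refine ⟨succ (dl g x0 x), succ_mem_omega (dl_spec hg hx0 ((mXe e x).1 hx).1
          (Ne.symm hx')).1, fun k _ h => ?_⟩
        rw [← h.2]; simp)
    refine ⟨b, hb, fun x hx hne => ?_⟩
    exact h x hx _ (dl_spec hg hx0 ((mXe e x).1 hx).1 (Ne.symm hne)).1 ⟨hne, rfl⟩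
  apply hD
  apply dinf_of_fto hg (sub_refl A) hinf
    (fun e => least (fun b => ∀ x, x ∈ Xe e → x ≠ x0 → dl g x0 x ∈ b))
  · intro e he
    exact (least_spec (fun b => ∀ x, x ∈ Xe e → x ≠ x0 → dl g x0 x ∈ b) (hex e he)).1
  · intro n hn
    obtain ⟨x, hx, hne, hag⟩ := hlim n hn
    have hdx : n ⊆ dl g x0 x := dl_ge hg hx0 hx hne.symm hn hag
    have h1 : FinM (sep A (fun e => ∃ p, p ∈ sep (sym A) (fun p => ap f p = x) ∧
        tr A e x = p)) := by
      apply fin_bunion A (fun e p => tr A e x = p) (hf.2 x hx)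
      intro p _
      by_cases hex : ∃ e, e ∈ A ∧ tr A e x = p
      · obtain ⟨e, he, e1⟩ := hex
        apply fin_sub (fin_sing e)
        intro z hz
        rw [mem_sep] at hz
        rw [mem_sing]
        rw [← (tr_spec hz.1 hx).2.2, hz.2, ← e1, (tr_spec he hx).2.2]
      · push Not at hex
        apply fin_sub fin_emp
        intro z hz
        rw [mem_sep] at hz
        exact absurd hz.2 (hex z hz.1)
    apply fin_sub (fin_un (fin_sing x) h1)
    intro e he
    rw [mem_sep] at he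
    rw [mem_un, mem_sing, mem_sep]
    by_cases hex' : e = x
    · left; exact hex'
    · right
      refine ⟨he.1, tr A e x, ?_, rfl⟩
      rw [mem_sep]
      refine ⟨(tr_spec he.1 hx).1, ?_⟩
      by_contra hfx
      have h2 : x ∈ Xe e := (mXe e x).2 ⟨hx, Ne.symm hex', hfx⟩
      have h3 := (least_spec (fun b => ∀ x, x ∈ Xe e → x ≠ x0 → dl g x0 x ∈ b)
        (hex e he.1)).2.1 x h2 hne
      rw [he.2] at h3
      exact not_mem_self _ (hdx _ h3)

end

end Pool.Agent.H78.ZF
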