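import Pool.Agent.H78.ZF.Basic

universe u

namespace Pool.Agent.H78.ZF

open Set

variable {M : Type u} [ZFM M] {ι : Type}

/-- `f` is a function from `a` to `b`. -/
def Fun (f a b : M) : Prop :=
  (∀ p, p ∈ f → ∃ x, x ∈ a ∧ ∃ y, y ∈ b ∧ p = opair x y) ∧
  ∀ x, x ∈ a → ∃! y, opair x y ∈ f

instance DR.Fun (f a b : (ι → M) → M) [DF f] [DF a] [DF b] :
    DR (fun v => Fun (f v) (a v) (b v)) := by
  unfold ZF.Fun
  infer_instance

/-- `f` is an injection from `a` to `b`. -/
def Inj (f a b : M) : Prop :=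
  Fun f a b ∧ ∀ x x' y, opair x y ∈ f → opair x' y ∈ f → x = x'

instance DR.Inj (f a b : (ι → M) → M) [DF f] [DF a] [DF b] :
    DR (fun v => Inj (f v) (a v) (b v)) := by
  unfold ZF.Inj
  infer_instance

/-- `f` is a bijection from `a` to `b`. -/
def Bij (f a b : M) : Prop := Inj f a b ∧ ∀ y, y ∈ b → ∃ x, opair x y ∈ f

instance DR.Bij (f a b : (ι → M) → M) [DF f] [DF a] [DF b] :
    DR (fun v => Bij (f v) (a v) (b v)) := by
  unfold ZF.Bij
  infer_instance

/-- Application of a function of the model. -/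
noncomputable def ap (f x : M) : M := iota (fun y => opair x y ∈ f)

instance DF.ap (f x : (ι → M) → M) [DF f] [DF x] : DF (fun v => ap (f v) (x v)) := by
  unfold ZF.ap
  infer_instance

section
variable {f g a b x y : M}

theorem Fun.opair_ap (h : Fun f a b) (hx : x ∈ a) : opair x (ap f x) ∈ f :=
  iota_spec (h.2 x hx)

theorem Fun.mem_of_opair (h : Fun f a b) (hp : opair x y ∈ f) : x ∈ a ∧ y ∈ b := by
  obtain ⟨x', hx', y', hy', e⟩ := h.1 _ hp
  obtain ⟨rfl, rfl⟩ := opair_inj e
  exact ⟨hx', hy'⟩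

theorem Fun.ap_mem (h : Fun f a b) (hx : x ∈ a) : ap f x ∈ b :=
  (h.mem_of_opair (h.opair_ap hx)).2

theorem Fun.opair_iff (h : Fun f a b) : opair x y ∈ f ↔ x ∈ a ∧ y = ap f x := by
  constructor
  · intro hp
    have hx := (h.mem_of_opair hp).1
    exact ⟨hx, (h.2 x hx).unique hp (h.opair_ap hx)⟩
  · rintro ⟨hx, rfl⟩
    exact h.opair_ap hx

theorem Fun.ap_eq (h : Fun f a b) (hp : opair x y ∈ f) : ap f x = y :=
  (h.opair_iff.1 hp).2.symm

theorem Fun.ext (hf : Fun f a b) (hg : Fun g a b) (h : ∀ x, x ∈ a → ap f x = ap g x) : f = g := by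
  apply ZF.ext
  intro p
  constructor
  · intro hp
    obtain ⟨x, hx, y, hy, rfl⟩ := hf.1 p hp
    rw [hf.opair_iff] at hp
    rw [hg.opair_iff, ← h x hx]
    exact hp
  · intro hp
    obtain ⟨x, hx, y, hy, rfl⟩ := hg.1 p hp
    rw [hg.opair_iff] at hp
    rw [hf.opair_iff, h x hx]
    exact hp

theorem Fun.sub_prod (h : Fun f a b) : f ⊆ prod a b := by
  intro p hp
  rw [mem_prod]
  exact h.1 p hp

theorem Fun.mono {c : M} (h : Fun f a b) (hbc : ∀ x, x ∈ a → ap f x ∈ c) : Fun f a c := by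
  refine ⟨fun p hp => ?_, h.2⟩
  obtain ⟨x, hx, y, hy, rfl⟩ := h.1 p hp
  refine ⟨x, hx, y, ?_, rfl⟩
  rw [h.opair_iff] at hp
  rw [hp.2]
  exact hbc x hx

theorem inj_iff : Inj f a b ↔ Fun f a b ∧ ∀ x x', x ∈ a → x' ∈ a → ap f x = ap f x' → x = x' := by
  constructor
  · rintro ⟨h1, h2⟩
    refine ⟨h1, fun x x' hx hx' e => ?_⟩
    exact h2 x x' (ap f x) (h1.opair_ap hx) (by rw [e]; exact h1.opair_ap hx')
  · rintro ⟨h1, h2⟩
    refine ⟨h1, fun x x' y hp hp' => ?_⟩
    rw [h1.opair_iff] at hp hp'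
    exact h2 x x' hp.1 hp'.1 (hp.2.symm.trans hp'.2)

theorem Inj.ap_inj (h : Inj f a b) {x x' : M} (hx : x ∈ a) (hx' : x' ∈ a)
    (e : ap f x = ap f x') : x = x' := (inj_iff.1 h).2 x x' hx hx' e

theorem bij_iff : Bij f a b ↔ Fun f a b ∧ (∀ x x', x ∈ a → x' ∈ a → ap f x = ap f x' → x = x') ∧
    ∀ y, y ∈ b → ∃ x, x ∈ a ∧ ap f x = y := by
  unfold Bij
  rw [inj_iff]
  constructor
  · rintro ⟨⟨h1, h2⟩, h3⟩
    refine ⟨h1, h2, fun y hy => ?_⟩
    obtain ⟨x, hx⟩ := h3 y hy
    rw [h1.opair_iff] at hx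
    exact ⟨x, hx.1, hx.2.symm⟩
  · rintro ⟨h1, h2, h3⟩
    refine ⟨⟨h1, h2⟩, fun y hy => ?_⟩
    obtain ⟨x, hx, rfl⟩ := h3 y hy
    exact ⟨x, h1.opair_ap hx⟩

theorem Bij.inj (h : Bij f a b) : Inj f a b := h.1
theorem Bij.fun (h : Bij f a b) : Fun f a b := h.1.1
theorem Inj.fun (h : Inj f a b) : Fun f a b := h.1

end

/-- The function on `a` with values in `b` given by a class function. -/
noncomputable def mkf (a b : M) (F : M → M) : M :=
  sep (prod a b) (fun p => ∃ x, x ∈ a ∧ p = opair x (F x))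

instance DF.mkf (a b : (ι → M) → M) (F : M → (ι → M) → M) [DF a] [DF b]
    [h : DF (ι := Option ι) (fun v => F (v none) (fun i => v (some i)))] :
    DF (fun v => mkf (a v) (b v) (fun x => F x v)) := by
  have hw : DF (ι := Option (Option ι)) (fun v => F (v none) (fun i => v (some (some i)))) :=
    DF.weaken (fun w : Option ι → M => F (w none) (fun i => w (some i)))
      (fun o : Option ι => (match o with | none => none | some i => some (some i) :
        Option (Option ι)))
  unfold ZF.mkf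
  infer_instance

theorem mkf_opair (a b : M) (F : M → M) [F1 F] (x y : M) :
    opair x y ∈ mkf a b F ↔ x ∈ a ∧ y ∈ b ∧ y = F x := by
  unfold mkf
  rw [mem_sep]
  simp only [opair_mem_prod, opair_eq_iff]
  constructor
  · rintro ⟨⟨hx, hy⟩, x', hx', rfl, h⟩
    exact ⟨hx, hy, h⟩
  · rintro ⟨hx, hy, h⟩
    exact ⟨⟨hx, hy⟩, x, hx, rfl, h⟩

theorem mkf_fun {a b : M} {F : M → M} [F1 F] (h : ∀ x, x ∈ a → F x ∈ b) :
    Fun (mkf a b F) a b := by
  constructor
  · intro p hp
    have hp' : p ∈ prod a b := by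
      unfold mkf at hp
      rw [mem_sep] at hp
      exact hp.1
    rw [mem_prod] at hp'
    exact hp'
  · intro x hx
    refine ⟨F x, ?_, ?_⟩
    · show opair x (F x) ∈ _
      rw [mkf_opair]; exact ⟨hx, h x hx, rfl⟩
    · intro y hy
      rw [mkf_opair] at hy
      exact hy.2.2

theorem ap_mkf {a b : M} {F : M → M} [F1 F] (h : ∀ x, x ∈ a → F x ∈ b) {x : M} (hx : x ∈ a) :
    ap (mkf a b F) x = F x := by
  have h1 := (mkf_fun h).opair_ap hx
  rw [mkf_opair] at h1
  exact h1.2.2

/-- The set of all permutations. -/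
noncomputable def sym (A : M) : M := sep (pow (prod A A)) (fun f => Bij f A A)

instance DF.sym (s : (ι → M) → M) [DF s] : DF (fun v => sym (s v)) := by
  unfold ZF.sym
  infer_instance

@[simp] theorem mem_sym (A f : M) : f ∈ sym A ↔ Bij f A A := by
  unfold sym
  rw [mem_sep, mem_pow]
  exact ⟨fun h => h.2, fun h => ⟨h.fun.sub_prod, h⟩⟩

/-- The involution that exchanges the elements matched by `m` and fixes all others. -/
noncomputable def invol (A : M) (m : M → M → Prop) : M :=
  sep (prod A A) (fun p => ∃ x, ∃ y, p = opair x y ∧ (m x y ∨ (x = y ∧ ∀ z, ¬ m x z)))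

instance DF.invol (A : (ι → M) → M) (m : M → M → (ι → M) → Prop) [DF A]
    [h : DR (ι := Option (Option ι))
      (fun v => m (v (some none)) (v none) (fun i => v (some (some i))))] :
    DF (fun v => invol (A v) (fun x y => m x y v)) := by
  unfold ZF.invol
  have h1 : DR (ι := Option (Option (Option ι)))
      (fun v => m (v (some none)) (v none) (fun i => v (some (some (some i))))) :=
    DR.weaken (fun w : Option (Option ι) → M =>
        m (w (some none)) (w none) (fun i => w (some (some i))))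
      (fun o : Option (Option ι) => (match o with
        | none => none | some none => some none | some (some i) => some (some (some i)) :
        Option (Option (Option ι))))
  have h2 : DR (ι := Option (Option (Option (Option ι))))
      (fun v => m (v (some (some none))) (v none) (fun i => v (some (some (some (some i)))))) :=
    DR.weaken (fun w : Option (Option ι) → M =>
        m (w (some none)) (w none) (fun i => w (some (some i))))
      (fun o : Option (Option ι) => (match o with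
        | none => none | some none => some (some none)
        | some (some i) => some (some (some (some i))) :
        Option (Option (Option (Option ι)))))
  infer_instance

section
variable {A : M} {m : M → M → Prop} [D2 m]

theorem opair_mem_invol {x y : M} : opair x y ∈ invol A m ↔
    x ∈ A ∧ y ∈ A ∧ (m x y ∨ (x = y ∧ ∀ z, ¬ m x z)) := by
  unfold invol
  rw [mem_sep]
  simp only [opair_mem_prod, opair_eq_iff]
  constructor
  · rintro ⟨⟨hx, hy⟩, x', y', ⟨rfl, rfl⟩, h⟩
    exact ⟨hx, hy, h⟩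
  · rintro ⟨hx, hy, h⟩
    exact ⟨⟨hx, hy⟩, x, y, ⟨rfl, rfl⟩, h⟩

theorem invol_fun (hA : ∀ x y, m x y → x ∈ A) (hs : ∀ x y, m x y → m y x)
    (hf : ∀ x y z, m x y → m x z → y = z) : Fun (invol A m) A A := by
  constructor
  · intro p hp
    unfold invol at hp
    rw [mem_sep, mem_prod] at hp
    exact hp.1
  · intro x hx
    by_cases h : ∃ z, m x z
    · obtain ⟨z, hz⟩ := h
      refine ⟨z, ?_, ?_⟩
      · show opair x z ∈ _
        rw [opair_mem_invol]
        exact ⟨hx, hA _ _ (hs _ _ hz), Or.inl hz⟩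
      · intro y hy
        rw [opair_mem_invol] at hy
        rcases hy.2.2 with h1 | h1
        · exact hf _ _ _ h1 hz
        · exact absurd hz (h1.2 z)
    · push Not at h
      refine ⟨x, ?_, ?_⟩
      · show opair x x ∈ _
        rw [opair_mem_invol]
        exact ⟨hx, hx, Or.inr ⟨rfl, h⟩⟩
      · intro y hy
        rw [opair_mem_invol] at hy
        rcases hy.2.2 with h1 | h1
        · exact absurd h1 (h y)
        · exact h1.1.symm

theorem ap_invol_of (hA : ∀ x y, m x y → x ∈ A) (hs : ∀ x y, m x y → m y x)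
    (hf : ∀ x y z, m x y → m x z → y = z) {x y : M} (h : m x y) : ap (invol A m) x = y := by
  apply (invol_fun hA hs hf).ap_eq
  rw [opair_mem_invol]
  exact ⟨hA _ _ h, hA _ _ (hs _ _ h), Or.inl h⟩

theorem ap_invol_of_not (hA : ∀ x y, m x y → x ∈ A) (hs : ∀ x y, m x y → m y x)
    (hf : ∀ x y z, m x y → m x z → y = z) {x : M} (hx : x ∈ A) (h : ∀ y, ¬ m x y) :
    ap (invol A m) x = x := by
  apply (invol_fun hA hs hf).ap_eq
  rw [opair_mem_invol]
  exact ⟨hx, hx, Or.inr ⟨rfl, h⟩⟩

theorem invol_bij (hA : ∀ x y, m x y → x ∈ A) (hs : ∀ x y, m x y → m y x)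
    (hf : ∀ x y z, m x y → m x z → y = z) : Bij (invol A m) A A := by
  have key : ∀ x, x ∈ A → ap (invol A m) (ap (invol A m) x) = x := by
    intro x hx
    by_cases h : ∃ z, m x z
    · obtain ⟨z, hz⟩ := h
      rw [ap_invol_of hA hs hf hz, ap_invol_of hA hs hf (hs _ _ hz)]
    · push Not at h
      rw [ap_invol_of_not hA hs hf hx h, ap_invol_of_not hA hs hf hx h]
  rw [bij_iff]
  refine ⟨invol_fun hA hs hf, ?_, ?_⟩
  · intro x x' hx hx' e
    rw [← key x hx, e, key x' hx']
  · intro y hy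
    exact ⟨_, (invol_fun hA hs hf).ap_mem hy, key y hy⟩

end

end Pool.Agent.H78.ZF
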