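import Pool.Agent.H78.ZF.Func

universe u

namespace Pool.Agent.H78.ZF

open Set

variable {M : Type u} [ZFM M] {ι : Type}

/-- Successor. -/
noncomputable def succ (x : M) : M := ins x x

@[simp] theorem mem_succ (x w : M) : w ∈ succ x ↔ w ∈ x ∨ w = x := by simp [succ]

instance DF.succ (s : (ι → M) → M) [DF s] : DF (fun v => succ (s v)) := by
  unfold ZF.succ
  infer_instance

/-- Inductive sets. -/
def Inductive (I : M) : Prop := emp ∈ I ∧ ∀ y, y ∈ I → succ y ∈ I

instance DR.Inductive (s : (ι → M) → M) [DF s] : DR (fun v => Inductive (s v)) := by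
  unfold ZF.Inductive
  infer_instance

theorem exists_inductive : ∃ I : M, Inductive I := by
  obtain ⟨x, ⟨e, hex, he⟩, hx⟩ := ZFM.zf.infinity (M := M)
  have he' : e = emp := eq_emp he
  subst he'
  refine ⟨x, hex, fun y hy => ?_⟩
  obtain ⟨s, hs, h⟩ := hx y hy
  have : s = succ y := ext fun z => by rw [mem_succ]; exact h z
  rw [← this]; exact hs

/-- The set of natural numbers of the model. -/
noncomputable def omega : M :=
  sep (Classical.choose exists_inductive) (fun n => ∀ I : M, Inductive I → n ∈ I)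

theorem mem_omega {n : M} : n ∈ (omega : M) ↔ ∀ I : M, Inductive I → n ∈ I := by
  unfold omega
  rw [mem_sep]
  exact ⟨fun h => h.2, fun h => ⟨h _ (Classical.choose_spec exists_inductive), h⟩⟩

theorem inductive_omega : Inductive (omega : M) := by
  constructor
  · rw [mem_omega]; exact fun I hI => hI.1
  · intro y hy
    rw [mem_omega] at hy ⊢
    exact fun I hI => hI.2 _ (hy I hI)

@[simp] theorem emp_mem_omega : emp ∈ (omega : M) := inductive_omega.1

theorem succ_mem_omega {n : M} (h : n ∈ (omega : M)) : succ n ∈ (omega : M) :=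
  inductive_omega.2 n h

theorem omega_induction (P : M → Prop) [D1 P] (h0 : P emp)
    (hs : ∀ n, n ∈ (omega : M) → P n → P (succ n)) : ∀ n, n ∈ (omega : M) → P n := by
  have h : Inductive (sep omega P) := by
    constructor
    · rw [mem_sep]; exact ⟨emp_mem_omega, h0⟩
    · intro y hy
      rw [mem_sep] at hy ⊢
      exact ⟨succ_mem_omega hy.1, hs y hy.1 hy.2⟩
  intro n hn
  have := mem_omega.1 hn _ h
  rw [mem_sep] at this
  exact this.2

theorem foundation (x : M) (h : x ≠ emp) : ∃ y, y ∈ x ∧ ∀ z, z ∈ y → z ∉ x :=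
  ZFM.zf.foundation x (ne_emp_iff.1 h)

theorem not_mem_self (x : M) : x ∉ x := by
  obtain ⟨y, hy, h⟩ := foundation (sing x) (ne_emp_iff.2 ⟨x, by simp⟩)
  rw [mem_sing] at hy
  subst hy
  intro hx
  exact h y hx (by simp)

theorem omega_trans {n : M} (hn : n ∈ (omega : M)) : ∀ m, m ∈ n → m ⊆ n := by
  apply omega_induction (fun n => ∀ m, m ∈ n → m ⊆ n) _ _ n hn
  · intro m hm; exact absurd hm (not_mem_emp m)
  · intro n hn ih m hm
    rw [mem_succ] at hm
    intro z hz
    rw [mem_succ]
    rcases hm with hm | rfl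
    · left; exact ih m hm z hz
    · left; exact hz

theorem omega_sub {n : M} (hn : n ∈ (omega : M)) : n ⊆ omega := by
  apply omega_induction (fun n => n ⊆ omega) _ _ n hn
  · exact emp_sub _
  · intro n hn ih m hm
    rw [mem_succ] at hm
    rcases hm with hm | rfl
    · exact ih m hm
    · exact hn

theorem mem_omega_of_mem {m n : M} (h : m ∈ n) (hn : n ∈ (omega : M)) : m ∈ (omega : M) :=
  omega_sub hn m h

theorem lt_trans {k m n : M} (hn : n ∈ (omega : M)) (h : k ∈ m) (h' : m ∈ n) : k ∈ n :=
  omega_trans hn m h' k h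

theorem eq_emp_or_emp_mem {n : M} (hn : n ∈ (omega : M)) : n = emp ∨ emp ∈ n := by
  apply omega_induction (fun n => n = emp ∨ emp ∈ n) _ _ n hn
  · left; rfl
  · intro n hn ih
    right
    rw [mem_succ]
    rcases ih with rfl | ih
    · right; rfl
    · left; exact ih

theorem eq_emp_or_succ {n : M} (hn : n ∈ (omega : M)) :
    n = emp ∨ ∃ m, m ∈ (omega : M) ∧ n = succ m := by
  apply omega_induction (fun n => n = emp ∨ ∃ m, m ∈ (omega : M) ∧ n = succ m) _ _ n hn
  · left; rfl
  · intro n hn _
    right; exact ⟨n, hn, rfl⟩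

theorem succ_le {m : M} (hm : m ∈ (omega : M)) : ∀ n, n ∈ m → succ n ∈ m ∨ succ n = m := by
  apply omega_induction (fun m => ∀ n, n ∈ m → succ n ∈ m ∨ succ n = m) _ _ m hm
  · intro n hn; exact absurd hn (not_mem_emp n)
  · intro m hm ih n hn
    rw [mem_succ] at hn
    rcases hn with hn | rfl
    · left
      rw [mem_succ]
      exact ih n hn
    · right; rfl

theorem trichotomy {m n : M} (hm : m ∈ (omega : M)) (hn : n ∈ (omega : M)) :
    m ∈ n ∨ m = n ∨ n ∈ m := by
  apply omega_induction (fun n => ∀ m, m ∈ (omega : M) → m ∈ n ∨ m = n ∨ n ∈ m) _ _ n hn m hm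
  · intro m hm
    rcases eq_emp_or_emp_mem hm with h | h
    · right; left; exact h
    · right; right; exact h
  · intro n hn ih m hm
    rcases ih m hm with h | h | h
    · left; rw [mem_succ]; left; exact h
    · left; rw [mem_succ]; right; exact h
    · rcases succ_le hm n h with h1 | h1
      · right; right; exact h1
      · right; left; exact h1.symm

theorem lt_asymm {m n : M} (hn : n ∈ (omega : M)) (h : m ∈ n) : ¬ n ∈ m :=
  fun h' => not_mem_self n (lt_trans hn h' h)

theorem le_or_lt {m n : M} (hm : m ∈ (omega : M)) (hn : n ∈ (omega : M)) : m ⊆ n ∨ n ∈ m := by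
  rcases trichotomy hm hn with h | h | h
  · left; exact omega_trans hn m h
  · left; rw [h]; exact sub_refl n
  · right; exact h

theorem le_iff {m n : M} (hm : m ∈ (omega : M)) (hn : n ∈ (omega : M)) :
    m ⊆ n ↔ m ∈ n ∨ m = n := by
  constructor
  · intro h
    rcases trichotomy hm hn with h1 | h1 | h1
    · left; exact h1
    · right; exact h1
    · exact absurd (h n h1) (not_mem_self n)
  · rintro (h | rfl)
    · exact omega_trans hn m h
    · exact sub_refl m

theorem lt_of_lt_of_le {k m n : M} (h : k ∈ m) (h' : m ⊆ n) : k ∈ n := h' k h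

theorem lt_of_le_of_lt {k m n : M} (hk : k ∈ (omega : M)) (hn : n ∈ (omega : M)) (h : k ⊆ m)
    (h' : m ∈ n) : k ∈ n := by
  have hm := mem_omega_of_mem h' hn
  rcases (le_iff hk hm).1 h with h1 | h1
  · exact lt_trans hn h1 h'
  · rw [h1]; exact h'

theorem not_lt {m n : M} (hm : m ∈ (omega : M)) (hn : n ∈ (omega : M)) : ¬ n ∈ m ↔ m ⊆ n := by
  constructor
  · intro h
    exact (le_or_lt hm hn).resolve_right h
  · intro h h1
    exact not_mem_self n (h n h1)

theorem succ_ne_emp (n : M) : succ n ≠ emp := ne_emp_iff.2 ⟨n, by simp⟩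

theorem succ_inj {m n : M} (hm : m ∈ (omega : M)) (hn : n ∈ (omega : M)) (h : succ m = succ n) :
    m = n := by
  have h1 : m ∈ succ n := by rw [← h]; simp
  have h2 : n ∈ succ m := by rw [h]; simp
  rw [mem_succ] at h1 h2
  rcases h1 with h1 | h1
  · rcases h2 with h2 | h2
    · exact absurd h2 (lt_asymm hn h1)
    · exact h2.symm
  · exact h1

theorem succ_le_iff {m n : M} (hn : n ∈ (omega : M)) :
    succ m ⊆ n ↔ m ∈ n := by
  constructor
  · intro h; exact h m (by simp)
  · intro h z hz
    rw [mem_succ] at hz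
    rcases hz with hz | rfl
    · exact lt_trans hn hz h
    · exact h

theorem lt_succ_iff {m n : M} (hm : m ∈ (omega : M)) (hn : n ∈ (omega : M)) :
    m ∈ succ n ↔ m ⊆ n := by
  rw [mem_succ, le_iff hm hn]

theorem un_omega {m n : M} (hm : m ∈ (omega : M)) (hn : n ∈ (omega : M)) :
    un m n ∈ (omega : M) := by
  rcases le_or_lt hm hn with h | h
  · have : un m n = n := ext fun z => by
      rw [mem_un]; exact ⟨fun h' => h'.elim (h z) id, Or.inr⟩
    rw [this]; exact hn
  · have h := omega_trans hm n h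
    have : un m n = m := ext fun z => by
      rw [mem_un]; exact ⟨fun h' => h'.elim id (h z), Or.inl⟩
    rw [this]; exact hm

theorem sub_un_left (m n : M) : m ⊆ un m n := fun z hz => by rw [mem_un]; left; exact hz
theorem sub_un_right (m n : M) : n ⊆ un m n := fun z hz => by rw [mem_un]; right; exact hz

theorem un_eq_of_sub {m n : M} (h : m ⊆ n) : un m n = n := ext fun z => by
  rw [mem_un]; exact ⟨fun h' => h'.elim (h z) id, Or.inr⟩

/-- The least natural number with a property. -/
noncomputable def least (P : M → Prop) : M :=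
  iota (fun n : M => n ∈ (omega : M) ∧ P n ∧ ∀ k : M, k ∈ n → ¬ P k)

instance DF.least (P : M → (ι → M) → Prop)
    [h : DR (ι := Option ι) (fun v => P (v none) (fun i => v (some i)))] :
    DF (fun v => least (fun x => P x v)) := by
  have hw : DR (ι := Option (Option ι)) (fun v => P (v none) (fun i => v (some (some i)))) :=
    DR.weaken (fun w : Option ι → M => P (w none) (fun i => w (some i)))
      (fun o : Option ι => (match o with | none => none | some i => some (some i) :
        Option (Option ι)))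
  unfold ZF.least
  infer_instance

theorem exists_least (P : M → Prop) [D1 P] (h : ∃ n, n ∈ (omega : M) ∧ P n) :
    ∃ n, n ∈ (omega : M) ∧ P n ∧ ∀ k, k ∈ n → ¬ P k := by
  obtain ⟨n, hn, hP⟩ := h
  obtain ⟨y, hy, h⟩ := foundation (sep omega P) (ne_emp_iff.2 ⟨n, by rw [mem_sep]; exact ⟨hn, hP⟩⟩)
  rw [mem_sep] at hy
  refine ⟨y, hy.1, hy.2, fun k hk hPk => h k hk ?_⟩
  rw [mem_sep]
  exact ⟨mem_omega_of_mem hk hy.1, hPk⟩

theorem least_spec (P : M → Prop) [D1 P] (h : ∃ n, n ∈ (omega : M) ∧ P n) :
    least P ∈ (omega : M) ∧ P (least P) ∧ ∀ k, k ∈ least P → ¬ P k := by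
  have : ∃! n, n ∈ (omega : M) ∧ P n ∧ ∀ k, k ∈ n → ¬ P k := by
    obtain ⟨n, hn⟩ := exists_least P h
    refine ⟨n, hn, fun m hm => ?_⟩
    rcases trichotomy hm.1 hn.1 with h1 | h1 | h1
    · exact absurd hm.2.1 (hn.2.2 m h1)
    · exact h1
    · exact absurd hn.2.1 (hm.2.2 n h1)
  exact iota_spec this

theorem least_le (P : M → Prop) [D1 P] {k : M} (hk : k ∈ (omega : M)) (h : P k) :
    least P ⊆ k := by
  have h1 := least_spec P ⟨k, hk, h⟩
  rw [← not_lt h1.1 hk]
  exact fun h' => h1.2.2 k h' h

end Pool.Agent.H78.ZF
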