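import Pool.Agent.H78.ZF.Rec

universe u

namespace Pool.Agent.H78.ZF

open Set

variable {M : Type u} [ZFM M] {ι : Type}

/-- One step of the walk through all pairs. -/
noncomputable def wstep (z : M) : M :=
  iota (fun w : M => ∃ a b c : M, z = opair (opair a b) c ∧
    ((∃ b', b' ∈ (omega : M) ∧ b = succ b' ∧ w = opair (opair (succ a) b') c) ∨
      (b = emp ∧ w = opair (opair emp (succ c)) (succ c))))

instance DF.wstep (s : (ι → M) → M) [DF s] : DF (fun v => wstep (s v)) := by
  unfold ZF.wstep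
  infer_instance

theorem wstep_succ {a b c : M} (hb : b ∈ (omega : M)) :
    wstep (opair (opair a (succ b)) c) = opair (opair (succ a) b) c := by
  apply iota_eq
  · exact ⟨a, succ b, c, rfl, Or.inl ⟨b, hb, rfl, rfl⟩⟩
  · rintro w ⟨a', b', c', e, h⟩
    obtain ⟨e1, rfl⟩ := opair_inj e
    obtain ⟨rfl, rfl⟩ := opair_inj e1
    rcases h with ⟨b'', hb'', e2, rfl⟩ | ⟨e2, _⟩
    · rw [succ_inj hb hb'' e2]
    · exact absurd e2 (succ_ne_emp b)

theorem wstep_emp {a c : M} :
    wstep (opair (opair a emp) c) = opair (opair emp (succ c)) (succ c) := by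
  apply iota_eq
  · exact ⟨a, emp, c, rfl, Or.inr ⟨rfl, rfl⟩⟩
  · rintro w ⟨a', b', c', e, h⟩
    obtain ⟨e1, rfl⟩ := opair_inj e
    obtain ⟨rfl, rfl⟩ := opair_inj e1
    rcases h with ⟨b'', hb'', e2, _⟩ | ⟨_, h2⟩
    · exact absurd e2.symm (succ_ne_emp b'')
    · exact h2

/-- State space of the walk. -/
noncomputable def wZ : M := prod (prod omega omega) omega

theorem wstep_mem {z : M} (hz : z ∈ (wZ : M)) : wstep z ∈ (wZ : M) := by
  unfold wZ at hz ⊢
  rw [mem_prod] at hz
  obtain ⟨p, hp, c, hc, rfl⟩ := hz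
  rw [mem_prod] at hp
  obtain ⟨a, ha, b, hb, rfl⟩ := hp
  rcases eq_emp_or_succ hb with rfl | ⟨b', hb', rfl⟩
  · rw [wstep_emp]
    simp [succ_mem_omega hc]
  · rw [wstep_succ hb']
    simp [succ_mem_omega ha, hb', hc]

/-- The walk through all pairs. -/
noncomputable def walk : M := recf wZ (opair (opair emp emp) emp) (mkf wZ wZ (fun z => wstep z))

theorem walk_z0 : opair (opair emp emp) emp ∈ (wZ : M) := by
  unfold wZ; simp

theorem walk_g : Fun (mkf (wZ : M) wZ (fun z => wstep z)) wZ wZ :=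
  mkf_fun (fun _ hz => wstep_mem hz)

theorem walk_fun : Fun (walk : M) omega wZ := recf_fun walk_z0 walk_g

theorem walk_zero : ap (walk : M) emp = opair (opair emp emp) emp := recf_zero walk_z0 walk_g

theorem walk_succ {n : M} (hn : n ∈ (omega : M)) : ap walk (succ n) = wstep (ap walk n) := by
  unfold walk
  rw [recf_succ walk_z0 walk_g hn]
  exact ap_mkf (fun _ hz => wstep_mem hz) ((recf_fun walk_z0 walk_g).ap_mem hn)

theorem walk_down {c : M} {b : M} (hb : b ∈ (omega : M)) :
    ∀ a, (∃ n, n ∈ (omega : M) ∧ ap walk n = opair (opair a b) c) →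
      ∃ a', ∃ n, n ∈ (omega : M) ∧ ap walk n = opair (opair a' emp) c := by
  apply omega_induction (fun b => ∀ a, (∃ n, n ∈ (omega : M) ∧ ap walk n = opair (opair a b) c) →
      ∃ a', ∃ n, n ∈ (omega : M) ∧ ap walk n = opair (opair a' emp) c) _ _ b hb
  · intro a h
    exact ⟨a, h⟩
  · intro b hb ih a h
    obtain ⟨n, hn, e⟩ := h
    apply ih (succ a)
    exact ⟨succ n, succ_mem_omega hn, by rw [walk_succ hn, e, wstep_succ hb]⟩

theorem walk_diag {c : M} (hc : c ∈ (omega : M)) :
    ∃ n, n ∈ (omega : M) ∧ ap walk n = opair (opair emp c) c := by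
  apply omega_induction (fun c => ∃ n, n ∈ (omega : M) ∧ ap walk n = opair (opair emp c) c) _ _ c hc
  · exact ⟨emp, emp_mem_omega, walk_zero⟩
  · intro c hc ih
    obtain ⟨a', n, hn, e⟩ := walk_down hc emp ih
    exact ⟨succ n, succ_mem_omega hn, by rw [walk_succ hn, e, wstep_emp]⟩

theorem walk_surj {a : M} (ha : a ∈ (omega : M)) : ∀ b, b ∈ (omega : M) →
    ∃ n, n ∈ (omega : M) ∧ ∃ c, ap walk n = opair (opair a b) c := by
  apply omega_induction (fun a => ∀ b, b ∈ (omega : M) →
    ∃ n, n ∈ (omega : M) ∧ ∃ c, ap walk n = opair (opair a b) c) _ _ a ha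
  · intro b hb
    obtain ⟨n, hn, e⟩ := walk_diag hb
    exact ⟨n, hn, b, e⟩
  · intro a ha ih b hb
    obtain ⟨n, hn, c, e⟩ := ih (succ b) (succ_mem_omega hb)
    exact ⟨succ n, succ_mem_omega hn, c, by rw [walk_succ hn, e, wstep_succ hb]⟩

/-- An injective pairing function on `omega`. -/
noncomputable def pr (a b : M) : M := least (fun n => ∃ c, ap walk n = opair (opair a b) c)

instance DF.pr (s t : (ι → M) → M) [DF s] [DF t] : DF (fun v => pr (s v) (t v)) := by
  unfold ZF.pr
  infer_instance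

theorem pr_spec {a b : M} (ha : a ∈ (omega : M)) (hb : b ∈ (omega : M)) :
    pr a b ∈ (omega : M) ∧ ∃ c, ap walk (pr a b) = opair (opair a b) c := by
  have := least_spec (fun n => ∃ c, ap walk n = opair (opair a b) c) (walk_surj ha b hb)
  exact ⟨this.1, this.2.1⟩

theorem pr_mem {a b : M} (ha : a ∈ (omega : M)) (hb : b ∈ (omega : M)) :
    pr a b ∈ (omega : M) := (pr_spec ha hb).1

theorem pr_inj {a b a' b' : M} (ha : a ∈ (omega : M)) (hb : b ∈ (omega : M))
    (ha' : a' ∈ (omega : M)) (hb' : b' ∈ (omega : M)) (h : pr a b = pr a' b') :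
    a = a' ∧ b = b' := by
  obtain ⟨c, hc⟩ := (pr_spec ha hb).2
  obtain ⟨c', hc'⟩ := (pr_spec ha' hb').2
  rw [h, hc'] at hc
  have := (opair_inj (opair_inj hc).1)
  exact ⟨this.1.symm, this.2.symm⟩

/-! ### A fixed point principle without choice -/

section tower

/-- Families closed under the successor operation and unions of nonempty chains. -/
def Tower (u0 : M) (S : M → M) (T : M) : Prop :=
  u0 ∈ T ∧ (∀ u, u ∈ T → S u ∈ T) ∧
  ∀ C, C ⊆ T → C ≠ emp → (∀ u v, u ∈ C → v ∈ C → u ⊆ v ∨ v ⊆ u) → sUn C ∈ T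

instance DR.Tower (T : (ι → M) → M) (u0 : M) (S : M → M) [F1 S] [DF T] :
    DR (fun v => Tower u0 S (T v)) := by
  unfold ZF.Tower
  infer_instance

/-- If a family of subsets of `X` given by `good` is closed under unions of nonempty chains and
`Φ` picks for each member a new point whose adjunction stays in the family, we have a
contradiction. -/
theorem tower_false (X u0 : M) (good : M → Prop) [D1 good] (Φ : M → M) [F1 Φ]
    (h0 : u0 ⊆ X) (h0' : good u0)
    (hs : ∀ u, u ⊆ X → good u → Φ u ∈ X ∧ Φ u ∉ u ∧ good (ins u (Φ u)))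
    (hc : ∀ C, C ≠ emp → (∀ u, u ∈ C → u ⊆ X ∧ good u) →
      (∀ u v, u ∈ C → v ∈ C → u ⊆ v ∨ v ⊆ u) → good (sUn C)) : False := by
  -- the intersection of all towers
  set S : M → M := fun u => ins u (Φ u) with hS
  have : F1 S := by rw [hS]; infer_instance
  set P : M := sep (pow X) (fun u => good u) with hP
  have hPT : Tower u0 S P := by
    refine ⟨?_, ?_, ?_⟩
    · rw [hP, mem_sep, mem_pow]; exact ⟨h0, h0'⟩
    · intro u hu
      rw [hP, mem_sep, mem_pow] at hu ⊢
      obtain ⟨h1, h2, h3⟩ := hs u hu.1 hu.2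
      refine ⟨?_, h3⟩
      intro z hz
      rw [hS, mem_ins] at hz
      rcases hz with hz | rfl
      · exact hu.1 z hz
      · exact h1
    · intro C hC hne hch
      have hC' : ∀ u, u ∈ C → u ⊆ X ∧ good u := by
        intro u hu
        have := hC u hu
        rwa [hP, mem_sep, mem_pow] at this
      rw [hP, mem_sep, mem_pow]
      refine ⟨?_, hc C hne hC' hch⟩
      intro z hz
      rw [mem_sUn] at hz
      obtain ⟨y, hy, hzy⟩ := hz
      exact (hC' y hy).1 z hzy
  set T0 : M := sep P (fun u => ∀ T : M, Tower u0 S T → u ∈ T) with hT0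
  have hmem : ∀ u, u ∈ T0 ↔ ∀ T : M, Tower u0 S T → u ∈ T := by
    intro u
    rw [hT0, mem_sep]
    exact ⟨fun h => h.2, fun h => ⟨h P hPT, h⟩⟩
  have hT0T : Tower u0 S T0 := by
    refine ⟨?_, ?_, ?_⟩
    · rw [hmem]; exact fun T hT => hT.1
    · intro u hu
      rw [hmem] at hu ⊢
      exact fun T hT => hT.2.1 u (hu T hT)
    · intro C hC hne hch
      rw [hmem]
      intro T hT
      exact hT.2.2 C (fun u hu => (hmem u).1 (hC u hu) T hT) hne hch
  have hmin : ∀ Q : M → Prop, ∀ [D1 Q], Q u0 → (∀ u, u ∈ T0 → Q u → Q (S u)) →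
      (∀ C, C ⊆ T0 → (∀ u, u ∈ C → Q u) → C ≠ emp →
        (∀ u v, u ∈ C → v ∈ C → u ⊆ v ∨ v ⊆ u) → Q (sUn C)) → ∀ u, u ∈ T0 → Q u := by
    intro Q _ hq0 hqs hqc u hu
    have hTQ : Tower u0 S (sep T0 Q) := by
      refine ⟨?_, ?_, ?_⟩
      · rw [mem_sep]; exact ⟨hT0T.1, hq0⟩
      · intro u hu
        rw [mem_sep] at hu ⊢
        exact ⟨hT0T.2.1 u hu.1, hqs u hu.1 hu.2⟩
      · intro C hC hne hch
        have h1 : ∀ u, u ∈ C → u ∈ T0 ∧ Q u := by
          intro u hu
          have := hC u hu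
          rwa [mem_sep] at this
        rw [mem_sep]
        exact ⟨hT0T.2.2 C (fun u hu => (h1 u hu).1) hne hch,
          hqc C (fun u hu => (h1 u hu).1) (fun u hu => (h1 u hu).2) hne hch⟩
    have := (hmem u).1 hu _ hTQ
    rw [mem_sep] at this
    exact this.2
  have hsubS : ∀ u, u ⊆ S u := by
    intro u z hz
    rw [hS, mem_ins]; left; exact hz
  have hT0P : ∀ u, u ∈ T0 → u ⊆ X ∧ good u := by
    intro u hu
    have := (hmem u).1 hu P hPT
    rwa [hP, mem_sep, mem_pow] at this
  have hbase : ∀ u, u ∈ T0 → u0 ⊆ u := by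
    apply hmin (fun u => u0 ⊆ u)
    · exact sub_refl _
    · intro u _ h
      exact sub_trans h (hsubS u)
    · intro C hC h hne _
      obtain ⟨u, hu⟩ := ne_emp_iff.1 hne
      intro z hz
      rw [mem_sUn]
      exact ⟨u, hu, h u hu z hz⟩
  -- a comparable element `c` splits the tower
  have hsplit : ∀ c, c ∈ T0 → (∀ b, b ∈ T0 → b ⊆ c ∨ c ⊆ b) →
      ∀ b, b ∈ T0 → b ⊆ c ∨ S c ⊆ b := by
    intro c hc hcomp
    apply hmin (fun b => b ⊆ c ∨ S c ⊆ b)
    · left; exact hbase c hc
    · intro b hb h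
      rcases h with h | h
      · by_cases hbc : b = c
        · right; rw [hbc]; exact sub_refl _
        · left
          rcases hcomp (S b) (hT0T.2.1 b hb) with h1 | h1
          · exact h1
          · have h2 : ∃ z, z ∈ c ∧ z ∉ b := by
              by_contra hcon
              push Not at hcon
              exact hbc (sub_antisymm h hcon)
            obtain ⟨z, hz, hzb⟩ := h2
            have h3 := h1 z hz
            rw [hS, mem_ins] at h3
            have h4 := h3.resolve_left hzb
            intro w hw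
            rw [hS, mem_ins] at hw
            rcases hw with hw | hw
            · exact h w hw
            · rw [hw, ← h4]; exact hz
      · right; exact sub_trans h (hsubS b)
    · intro C _ h hne _
      by_cases hall : ∀ u, u ∈ C → u ⊆ c
      · left
        intro z hz
        rw [mem_sUn] at hz
        obtain ⟨y, hy, hzy⟩ := hz
        exact hall y hy z hzy
      · push Not at hall
        obtain ⟨u, hu, hun⟩ := hall
        right
        have := (h u hu).resolve_left hun
        intro z hz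
        rw [mem_sUn]
        exact ⟨u, hu, this z hz⟩
  have hcomp : ∀ c, c ∈ T0 → ∀ b, b ∈ T0 → b ⊆ c ∨ c ⊆ b := by
    apply hmin (fun c => ∀ b, b ∈ T0 → b ⊆ c ∨ c ⊆ b)
    · intro b hb
      right; exact hbase b hb
    · intro c hc h b hb
      rcases hsplit c hc h b hb with h1 | h1
      · left; exact sub_trans h1 (hsubS c)
      · right; exact h1
    · intro C _ h hne _ b hb
      by_cases hall : ∀ u, u ∈ C → u ⊆ b
      · right
        intro z hz
        rw [mem_sUn] at hz
        obtain ⟨y, hy, hzy⟩ := hz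
        exact hall y hy z hzy
      · push Not at hall
        obtain ⟨u, hu, hun⟩ := hall
        left
        have := (h u hu b hb).resolve_right hun
        intro z hz
        rw [mem_sUn]
        exact ⟨u, hu, this z hz⟩
  have hU : sUn T0 ∈ T0 := by
    apply hT0T.2.2 T0 (sub_refl _) (ne_emp_iff.2 ⟨u0, hT0T.1⟩)
    intro u v hu hv
    exact hcomp v hv u hu
  have hSU := hT0T.2.1 _ hU
  have h1 := hT0P _ hU
  have h2 := (hs _ h1.1 h1.2).2.1
  apply h2
  rw [mem_sUn]
  exact ⟨_, hSU, by rw [hS, mem_ins]; right; rfl⟩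

end tower

end Pool.Agent.H78.ZF
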