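import Pool.Agent.H78.ZF.DedInf

universe u

namespace Pool.Agent.H78.ZF

open Set

variable {M : Type u} [ZFM M] {ι : Type}

/-- The subsets of `omega` coded by `x` and `y` agree below `n`. -/
def Agree (g x y n : M) : Prop := ∀ m, m ∈ n → (m ∈ ap g x ↔ m ∈ ap g y)

instance DR.Agree (g x y n : (ι → M) → M) [DF g] [DF x] [DF y] [DF n] :
    DR (fun v => Agree (g v) (x v) (y v) (n v)) := by
  unfold ZF.Agree
  infer_instance

/-- Lexicographic order on codes. -/
def Lx (g x y : M) : Prop :=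
  ∃ n, n ∈ (omega : M) ∧ n ∉ ap g x ∧ n ∈ ap g y ∧ Agree g x y n

instance DR.Lx (g x y : (ι → M) → M) [DF g] [DF x] [DF y] :
    DR (fun v => Lx (g v) (x v) (y v)) := by
  unfold ZF.Lx
  infer_instance

/-- First difference. -/
noncomputable def dl (g x y : M) : M := least (fun n => ¬ (n ∈ ap g x ↔ n ∈ ap g y))

instance DF.dl (g x y : (ι → M) → M) [DF g] [DF x] [DF y] :
    DF (fun v => dl (g v) (x v) (y v)) := by
  unfold ZF.dl
  infer_instance

section
variable {g A : M}

theorem dl_spec (hg : Inj g A (pow omega)) {x y : M} (hx : x ∈ A) (hy : y ∈ A) (hne : x ≠ y) :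
    dl g x y ∈ (omega : M) ∧ ¬ (dl g x y ∈ ap g x ↔ dl g x y ∈ ap g y) ∧
      Agree g x y (dl g x y) := by
  have hex : ∃ n, n ∈ (omega : M) ∧ ¬ (n ∈ ap g x ↔ n ∈ ap g y) := by
    by_contra hc
    push Not at hc
    apply hne
    apply hg.ap_inj hx hy
    have h1 := hg.fun.ap_mem hx
    have h2 := hg.fun.ap_mem hy
    rw [mem_pow] at h1 h2
    apply ext
    intro z
    constructor
    · intro hz
      have := hc z (h1 z hz)
      tauto
    · intro hz
      have := hc z (h2 z hz)
      tauto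
  have h := least_spec (fun n => ¬ (n ∈ ap g x ↔ n ∈ ap g y)) hex
  refine ⟨h.1, h.2.1, fun m hm => ?_⟩
  have := h.2.2 m hm
  tauto

theorem dl_ge (hg : Inj g A (pow omega)) {x y n : M} (hx : x ∈ A) (hy : y ∈ A) (hne : x ≠ y)
    (hn : n ∈ (omega : M)) (h : Agree g x y n) : n ⊆ dl g x y := by
  have h1 := dl_spec hg hx hy hne
  rw [← not_lt hn h1.1]
  intro h2
  exact h1.2.1 (h _ h2)

theorem agree_of_le {x y n : M} {m : M} (h : Agree g x y n) (hmn : m ⊆ n) : Agree g x y m :=
  fun k hk => h k (hmn k hk)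

theorem lx_trans {x y z : M} (h : Lx g x y) (h' : Lx g y z) : Lx g x z := by
  obtain ⟨n, hn, h1, h2, h3⟩ := h
  obtain ⟨m, hm, h1', h2', h3'⟩ := h'
  rcases trichotomy hn hm with h4 | h4 | h4
  · refine ⟨n, hn, h1, (h3' n h4).1 h2, fun k hk => ?_⟩
    rw [h3 k hk]
    exact h3' k (lt_trans hm hk h4)
  · rw [h4] at h2
    exact absurd h2 h1'
  · refine ⟨m, hm, fun h5 => h1' ((h3 m h4).1 h5), h2', fun k hk => ?_⟩
    rw [h3 k (lt_trans hn hk h4)]
    exact h3' k hk

theorem lx_irrefl {x : M} : ¬ Lx g x x := by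
  rintro ⟨n, _, h1, h2, _⟩
  exact h1 h2

theorem lx_total (hg : Inj g A (pow omega)) {x y : M} (hx : x ∈ A) (hy : y ∈ A) :
    x = y ∨ Lx g x y ∨ Lx g y x := by
  by_cases hne : x = y
  · left; exact hne
  right
  have h := dl_spec hg hx hy hne
  by_cases h1 : dl g x y ∈ ap g x
  · right
    have h2 : dl g x y ∉ ap g y := by
      intro h2; exact h.2.1 ⟨fun _ => h2, fun _ => h1⟩
    exact ⟨_, h.1, h2, h1, fun k hk => (h.2.2 k hk).symm⟩
  · left
    have h2 : dl g x y ∈ ap g y := by
      by_contra h2; exact h.2.1 ⟨fun h3 => absurd h3 h1, fun h3 => absurd h3 h2⟩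
    exact ⟨_, h.1, h1, h2, h.2.2⟩

/-- Least element of a finite nonempty set of reals. -/
theorem lx_least (hg : Inj g A (pow omega)) {F : M} (hF : FinM F) (hFA : F ⊆ A)
    (hne : F ≠ emp) : ∃ x, x ∈ F ∧ ∀ y, y ∈ F → x = y ∨ Lx g x y :=
  fin_least A (fun x y => Lx g x y) (fun _ _ _ _ _ _ h h' => lx_trans h h')
    (fun _ _ hx hy => lx_total hg hx hy) hF hFA hne

theorem lx_least_unique {F x y : M} (hx : x ∈ F) (hy : y ∈ F)
    (h : ∀ z, z ∈ F → x = z ∨ Lx g x z) (h' : ∀ z, z ∈ F → y = z ∨ Lx g y z) : x = y := by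
  rcases h y hy with h1 | h1
  · exact h1
  · rcases h' x hx with h2 | h2
    · exact h2.symm
    · exact absurd (lx_trans h1 h2) lx_irrefl

/-- The least element. -/
noncomputable def lmin (g F : M) : M := iota (fun x : M => x ∈ F ∧ ∀ y, y ∈ F → x = y ∨ Lx g x y)

instance DF.lmin (g x : (ι → M) → M) [DF g] [DF x] :
    DF (fun v => lmin (g v) (x v)) := by
  unfold ZF.lmin
  infer_instance

theorem lmin_spec (hg : Inj g A (pow omega)) {F : M} (hF : FinM F) (hFA : F ⊆ A)
    (hne : F ≠ emp) : lmin g F ∈ F ∧ ∀ y, y ∈ F → lmin g F = y ∨ Lx g (lmin g F) y := by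
  obtain ⟨x, hx, h⟩ := lx_least hg hF hFA hne
  have : ∃! x, x ∈ F ∧ ∀ y, y ∈ F → x = y ∨ Lx g x y :=
    ⟨x, ⟨hx, h⟩, fun y hy => lx_least_unique hy.1 hx hy.2 h⟩
  exact iota_spec this

/-- Dedekind-infinite sets. -/
def DInf (A : M) : Prop := ∃ u, Inj u omega A

/-- An infinite set of reals with a finite-to-one function to `omega` is Dedekind-infinite. -/
theorem dinf_of_fto (hg : Inj g A (pow omega)) {B : M} (hB : B ⊆ A) (hinf : ¬ FinM B)
    (q : M → M) [F1 q] (hq : ∀ x, x ∈ B → q x ∈ (omega : M))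
    (hfin : ∀ n, n ∈ (omega : M) → FinM (sep B (fun x => q x = n))) : DInf A := by
  set K : M := sep omega (fun n => ∃ x, x ∈ B ∧ q x = n) with hK
  have hKω : K ⊆ omega := by
    intro k hk
    rw [hK, mem_sep] at hk
    exact hk.1
  have hKunb : Unb K := by
    apply Unb.of_infinite hKω
    intro hfinK
    apply hinf
    have := fin_bunion B (fun x n => q x = n) hfinK (fun n hn => hfin n (hKω n hn))
    apply fin_sub this
    intro x hx
    rw [mem_sep]
    refine ⟨hx, q x, ?_, rfl⟩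
    rw [hK, mem_sep]
    exact ⟨hq x hx, x, hx, rfl⟩
  have hsp : ∀ n, n ∈ K → lmin g (sep B (fun x => q x = n)) ∈ sep B (fun x => q x = n) := by
    intro n hn
    have hn' := hn
    rw [hK, mem_sep] at hn'
    obtain ⟨hnω, x, hx, e⟩ := hn'
    refine (lmin_spec hg (hfin n hnω) ?_ ?_).1
    · intro z hz
      rw [mem_sep] at hz
      exact hB z hz.1
    · rw [ne_emp_iff]
      exact ⟨x, by rw [mem_sep]; exact ⟨hx, e⟩⟩
  have hval : ∀ n, n ∈ K → lmin g (sep B (fun x => q x = n)) ∈ A := by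
    intro n hn
    have := hsp n hn
    rw [mem_sep] at this
    exact hB _ this.1
  set c : M := mkf K A (fun n => lmin g (sep B (fun x => q x = n))) with hc
  have hap : ∀ n, n ∈ K → ap c n = lmin g (sep B (fun x => q x = n)) := by
    intro n hn
    rw [hc]
    exact ap_mkf hval hn
  have h := injOf_inj (q := c) (K := K) (A := A) hKunb
    (fun k hk => by rw [hap k hk]; exact hval k hk)
    (fun j hj => by
      apply fin_sub (fin_sing j)
      intro k hk
      rw [mem_sep, hap j hj] at hk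
      rw [hap k hk.1] at hk
      have h1 := hsp k hk.1
      have h2 := hsp j hj
      rw [mem_sep] at h1 h2
      rw [mem_sing, ← h1.2, ← h2.2, hk.2])
  exact ⟨_, h.1⟩

/-- Restriction of a real to `n`. -/
noncomputable def rst (g x n : M) : M := sep n (fun m => m ∈ ap g x)

instance DF.rst (g x n : (ι → M) → M) [DF g] [DF x] [DF n] :
    DF (fun v => rst (g v) (x v) (n v)) := by
  unfold ZF.rst
  infer_instance

theorem agree_of_rst {x y n : M} (h : rst g x n = rst g y n) : Agree g x y n := by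
  intro m hm
  have h1 : m ∈ rst g x n ↔ m ∈ rst g y n := by rw [h]
  unfold rst at h1
  rw [mem_sep, mem_sep] at h1
  tauto

/-- An infinite set of reals inside a Dedekind-finite one has a limit point in itself. -/
theorem exists_limit (hg : Inj g A (pow omega)) (hD : ¬ DInf A) {B : M} (hB : B ⊆ A)
    (hinf : ¬ FinM B) :
    ∃ x, x ∈ B ∧ ∀ n, n ∈ (omega : M) → ∃ y, y ∈ B ∧ y ≠ x ∧ Agree g x y n := by
  by_contra hcon
  push Not at hcon
  apply hD
  have hex : ∀ x, x ∈ B → ∃ n, n ∈ (omega : M) ∧ (∀ y, y ∈ B → y ≠ x → ¬ Agree g x y n) := hcon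
  apply dinf_of_fto hg hB hinf
    (fun x => least (fun n => ∀ y, y ∈ B → y ≠ x → ¬ Agree g x y n))
  · intro x hx
    exact (least_spec (fun n => ∀ y, y ∈ B → y ≠ x → ¬ Agree g x y n) (hex x hx)).1
  · intro n hn
    set Bn : M := sep B (fun x => least (fun n => ∀ y, y ∈ B → y ≠ x → ¬ Agree g x y n) = n)
      with hBn
    have h1 : FinM (sep Bn (fun x => ∃ z, z ∈ pow n ∧ rst g x n = z)) := by
      apply fin_bunion Bn (fun x z => rst g x n = z) (fin_pow_nat hn)
      intro z _
      by_cases hz : ∃ x, x ∈ Bn ∧ rst g x n = z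
      · obtain ⟨x, hx, e⟩ := hz
        apply fin_sub (fin_sing x)
        intro y hy
        rw [mem_sep] at hy
        rw [mem_sing]
        by_contra hne
        rw [hBn, mem_sep] at hx
        have h2 := (least_spec (fun n => ∀ y, y ∈ B → y ≠ x → ¬ Agree g x y n) (hex x hx.1)).2.1
        rw [hx.2] at h2
        have hyB : y ∈ B := by
          have := hy.1
          rw [hBn, mem_sep] at this
          exact this.1
        exact h2 y hyB hne (agree_of_rst (e.trans hy.2.symm))
      · push Not at hz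
        apply fin_sub fin_emp
        intro y hy
        rw [mem_sep] at hy
        exact absurd hy.2 (hz y hy.1)
    apply fin_sub h1
    intro x hx
    rw [mem_sep]
    refine ⟨hx, rst g x n, ?_, rfl⟩
    rw [mem_pow]
    intro z hz
    unfold rst at hz
    rw [mem_sep] at hz
    exact hz.1

end

end Pool.Agent.H78.ZF
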