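import Pool.Agent.H78.ZF.Finite

universe u

namespace Pool.Agent.H78.ZF

open Set

variable {M : Type u} [ZFM M] {ι : Type}

/-- Sets closed under the recursion step. -/
def RecClosed (T Z z0 g : M) : Prop :=
  opair emp z0 ∈ T ∧ ∀ n, n ∈ (omega : M) → ∀ z, z ∈ Z → opair n z ∈ T →
    opair (succ n) (ap g z) ∈ T

instance DR.RecClosed (T Z z0 g : (ι → M) → M) [DF T] [DF Z] [DF z0] [DF g] :
    DR (fun v => RecClosed (T v) (Z v) (z0 v) (g v)) := by
  unfold ZF.RecClosed
  infer_instance

/-- The function on `omega` defined by recursion. -/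
noncomputable def recf (Z z0 g : M) : M :=
  sep (prod omega Z) (fun p => ∀ T : M, RecClosed T Z z0 g → p ∈ T)

instance DF.recf (Z z0 g : (ι → M) → M) [DF Z] [DF z0] [DF g] :
    DF (fun v => recf (Z v) (z0 v) (g v)) := by
  unfold ZF.recf
  infer_instance

section
variable {Z z0 g : M}

theorem mem_recf {p : M} : p ∈ recf Z z0 g ↔ p ∈ prod omega Z ∧
    ∀ T : M, RecClosed T Z z0 g → p ∈ T := by
  unfold recf
  rw [mem_sep]

theorem recf_closed (hz : z0 ∈ Z) (hg : Fun g Z Z) : RecClosed (recf Z z0 g) Z z0 g := by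
  constructor
  · rw [mem_recf, opair_mem_prod]
    exact ⟨⟨emp_mem_omega, hz⟩, fun T hT => hT.1⟩
  · intro n hn z hz' h
    rw [mem_recf, opair_mem_prod] at h ⊢
    exact ⟨⟨succ_mem_omega hn, hg.ap_mem hz'⟩, fun T hT => hT.2 n hn z hz' (h.2 T hT)⟩

theorem recf_unique (hz : z0 ∈ Z) (hg : Fun g Z Z) :
    ∀ n, n ∈ (omega : M) → ∃! y, opair n y ∈ recf Z z0 g := by
  apply omega_induction (fun n => ∃! y, opair n y ∈ recf Z z0 g)
  · refine ⟨z0, (recf_closed hz hg).1, fun y hy => ?_⟩
    by_contra hne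
    have hT : RecClosed (sep (recf Z z0 g) (fun p => p ≠ opair emp y)) Z z0 g := by
      constructor
      · rw [mem_sep]
        refine ⟨(recf_closed hz hg).1, fun e => hne (opair_inj e).2.symm⟩
      · intro n hn z hz' h
        rw [mem_sep] at h ⊢
        refine ⟨(recf_closed hz hg).2 n hn z hz' h.1, fun e => succ_ne_emp n (opair_inj e).1⟩
    have := (mem_recf.1 hy).2 _ hT
    rw [mem_sep] at this
    exact this.2 rfl
  · intro n hn ih
    obtain ⟨z, hz1, hz2⟩ := ih
    have hzZ : z ∈ Z := by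
      have := (mem_recf.1 hz1).1
      rw [opair_mem_prod] at this
      exact this.2
    refine ⟨ap g z, (recf_closed hz hg).2 n hn z hzZ hz1, fun y hy => ?_⟩
    by_contra hne
    have hT : RecClosed (sep (recf Z z0 g) (fun p => p ≠ opair (succ n) y)) Z z0 g := by
      constructor
      · rw [mem_sep]
        exact ⟨(recf_closed hz hg).1, fun e => succ_ne_emp n (opair_inj e).1.symm⟩
      · intro m hm w hw h
        rw [mem_sep] at h ⊢
        refine ⟨(recf_closed hz hg).2 m hm w hw h.1, fun e => ?_⟩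
        have e1 := opair_inj e
        have hmn := succ_inj hm hn e1.1
        rw [hmn] at h
        have := hz2 w h.1
        rw [this] at e1
        exact hne e1.2.symm
    have := (mem_recf.1 hy).2 _ hT
    rw [mem_sep] at this
    exact this.2 rfl

theorem recf_fun (hz : z0 ∈ Z) (hg : Fun g Z Z) : Fun (recf Z z0 g) omega Z := by
  refine ⟨fun p hp => ?_, recf_unique hz hg⟩
  have := (mem_recf.1 hp).1
  rwa [mem_prod] at this

theorem recf_zero (hz : z0 ∈ Z) (hg : Fun g Z Z) : ap (recf Z z0 g) emp = z0 :=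
  (recf_fun hz hg).ap_eq (recf_closed hz hg).1

theorem recf_succ (hz : z0 ∈ Z) (hg : Fun g Z Z) {n : M} (hn : n ∈ (omega : M)) :
    ap (recf Z z0 g) (succ n) = ap g (ap (recf Z z0 g) n) := by
  have h := recf_fun hz hg
  exact h.ap_eq ((recf_closed hz hg).2 n hn _ (h.ap_mem hn) (h.opair_ap hn))

end

/-! ### Enumeration of an unbounded set of natural numbers -/

/-- The least element of `K` above `m`. -/
noncomputable def next (K m : M) : M := least (fun k => k ∈ K ∧ m ∈ k)

instance DF.next (K m : (ι → M) → M) [DF K] [DF m] : DF (fun v => next (K v) (m v)) := by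
  unfold ZF.next
  infer_instance

/-- Increasing enumeration of `K`. -/
noncomputable def enum (K : M) : M :=
  recf K (least (fun k => k ∈ K)) (mkf K K (fun m => next K m))

instance DF.enum (K : (ι → M) → M) [DF K] : DF (fun v => enum (K v)) := by
  unfold ZF.enum
  infer_instance

/-- Unbounded subsets of `omega`. -/
def Unb (K : M) : Prop := K ⊆ omega ∧ ∀ n, n ∈ (omega : M) → ∃ k, k ∈ K ∧ n ⊆ k

instance DR.Unb (s : (ι → M) → M) [DF s] : DR (fun v => Unb (s v)) := by
  unfold ZF.Unb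
  infer_instance

section
variable {K : M}

theorem Unb.of_infinite (hK : K ⊆ omega) (h : ¬ FinM K) : Unb K :=
  ⟨hK, fun _ hn => infinite_unbounded hK h hn⟩

theorem Unb.infinite (h : Unb K) : ¬ FinM K := unbounded_infinite h.1 h.2

theorem Unb.exists_gt (h : Unb K) {n : M} (hn : n ∈ (omega : M)) : ∃ k, k ∈ K ∧ n ∈ k := by
  obtain ⟨k, hk, h1⟩ := h.2 (succ n) (succ_mem_omega hn)
  exact ⟨k, hk, h1 n (by simp)⟩

theorem Unb.next_spec (h : Unb K) {m : M} (hm : m ∈ (omega : M)) :
    next K m ∈ K ∧ m ∈ next K m := by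
  obtain ⟨k, hk, h1⟩ := h.exists_gt hm
  exact (least_spec (fun k => k ∈ K ∧ m ∈ k) ⟨k, h.1 k hk, hk, h1⟩).2.1

theorem Unb.least_mem (h : Unb K) : least (fun k => k ∈ K) ∈ K := by
  obtain ⟨k, hk, _⟩ := h.2 emp emp_mem_omega
  exact (least_spec (fun k => k ∈ K) ⟨k, h.1 k hk, hk⟩).2.1

theorem Unb.next_fun (h : Unb K) : Fun (mkf K K (fun m => next K m)) K K :=
  mkf_fun (fun m hm => (h.next_spec (h.1 m hm)).1)

theorem Unb.enum_fun (h : Unb K) : Fun (enum K) omega K := recf_fun h.least_mem h.next_fun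

theorem Unb.enum_succ (h : Unb K) {n : M} (hn : n ∈ (omega : M)) :
    ap (enum K) n ∈ ap (enum K) (succ n) := by
  have h1 : ap (enum K) (succ n) = next K (ap (enum K) n) := by
    unfold enum
    rw [recf_succ h.least_mem h.next_fun hn]
    exact ap_mkf (fun m hm => (h.next_spec (h.1 m hm)).1) (h.enum_fun.ap_mem hn)
  rw [h1]
  exact (h.next_spec (h.1 _ (h.enum_fun.ap_mem hn))).2

theorem Unb.enum_lt (h : Unb K) {n : M} (hn : n ∈ (omega : M)) :
    ∀ m, m ∈ n → ap (enum K) m ∈ ap (enum K) n := by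
  apply omega_induction (fun n => ∀ m, m ∈ n → ap (enum K) m ∈ ap (enum K) n) _ _ n hn
  · intro m hm; exact absurd hm (not_mem_emp m)
  · intro n hn ih m hm
    rw [mem_succ] at hm
    rcases hm with hm | rfl
    · exact lt_trans (h.1 _ (h.enum_fun.ap_mem (succ_mem_omega hn))) (ih m hm) (h.enum_succ hn)
    · exact h.enum_succ hn

theorem Unb.enum_inj (h : Unb K) : Inj (enum K) omega K := by
  rw [inj_iff]
  refine ⟨h.enum_fun, fun m n hm hn e => ?_⟩
  rcases trichotomy hm hn with h1 | h1 | h1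
  · have := h.enum_lt hn m h1
    rw [e] at this
    exact absurd this (not_mem_self _)
  · exact h1
  · have := h.enum_lt hm n h1
    rw [e] at this
    exact absurd this (not_mem_self _)

end

/-- The first occurrences of the values of `q`. -/
noncomputable def firsts (q K : M) : M :=
  sep K (fun k => ∀ j, j ∈ K → j ∈ k → ap q j ≠ ap q k)

instance DF.firsts (q K : (ι → M) → M) [DF q] [DF K] : DF (fun v => firsts (q v) (K v)) := by
  unfold ZF.firsts
  infer_instance

/-- An injection from `omega` obtained from a finite-to-one function on `K`. -/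
noncomputable def injOf (q K A : M) : M :=
  mkf omega A (fun n => ap q (ap (enum (firsts q K)) n))

instance DF.injOf (q K A : (ι → M) → M) [DF q] [DF K] [DF A] :
    DF (fun v => injOf (q v) (K v) (A v)) := by
  unfold ZF.injOf
  infer_instance

theorem firsts_unb {q K : M} (hK : Unb K)
    (hfin : ∀ j, j ∈ K → FinM (sep K (fun k => ap q k = ap q j))) : Unb (firsts q K) := by
  constructor
  · intro k hk
    unfold firsts at hk
    rw [mem_sep] at hk
    exact hK.1 k hk.1
  · intro n hn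
    have h1 : FinM (sep K (fun k => ∃ j, j ∈ sep K (fun k => k ∈ n) ∧ ap q k = ap q j)) := by
      apply fin_bunion K (fun k j => ap q k = ap q j)
      · apply fin_sub (nat_fin hn)
        intro z hz
        rw [mem_sep] at hz
        exact hz.2
      · intro y hy
        rw [mem_sep] at hy
        exact hfin y hy.1
    have h2 : ∃ k, k ∈ (omega : M) ∧ (k ∈ K ∧ n ⊆ k ∧ ∀ j, j ∈ K → j ∈ n → ap q j ≠ ap q k) := by
      by_contra hc
      push Not at hc
      apply hK.infinite
      apply fin_sub (fin_un h1 (nat_fin hn))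
      intro k hk
      rw [mem_un, mem_sep]
      rcases le_or_lt hn (hK.1 k hk) with h | h
      · left
        obtain ⟨j, hj, hjn, e⟩ := hc k (hK.1 k hk) hk h
        exact ⟨hk, j, by rw [mem_sep]; exact ⟨hj, hjn⟩, e.symm⟩
      · right; exact h
    obtain ⟨k, hk, ⟨hkK, hnk, h3⟩, h4⟩ :=
      exists_least (fun k => k ∈ K ∧ n ⊆ k ∧ ∀ j, j ∈ K → j ∈ n → ap q j ≠ ap q k) h2
    refine ⟨k, ?_, hnk⟩
    unfold firsts
    rw [mem_sep]
    refine ⟨hkK, fun j hj hjk e => ?_⟩
    have hjω := hK.1 j hj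
    rcases le_or_lt hn hjω with h | h
    · apply h4 j hjk
      refine ⟨hj, h, fun i hi hin e' => ?_⟩
      exact h3 i hi hin (e'.trans e)
    · exact h3 j hj h e

theorem injOf_inj {q K A : M} (hK : Unb K) (hq : ∀ k, k ∈ K → ap q k ∈ A)
    (hfin : ∀ j, j ∈ K → FinM (sep K (fun k => ap q k = ap q j))) :
    Inj (injOf q K A) omega A ∧ ∀ n, n ∈ (omega : M) → ∃ k, k ∈ K ∧ ap (injOf q K A) n = ap q k := by
  have hF := firsts_unb hK hfin
  have hsub : ∀ k, k ∈ firsts q K → k ∈ K := by
    intro k hk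
    unfold firsts at hk
    rw [mem_sep] at hk
    exact hk.1
  have hval : ∀ n, n ∈ (omega : M) → ap q (ap (enum (firsts q K)) n) ∈ A := fun n hn =>
    hq _ (hsub _ (hF.enum_fun.ap_mem hn))
  have hap : ∀ n, n ∈ (omega : M) → ap (injOf q K A) n = ap q (ap (enum (firsts q K)) n) :=
    fun n hn => ap_mkf hval hn
  refine ⟨?_, fun n hn => ⟨_, hsub _ (hF.enum_fun.ap_mem hn), hap n hn⟩⟩
  rw [inj_iff]
  refine ⟨mkf_fun hval, fun m n hm hn e => ?_⟩
  rw [hap m hm, hap n hn] at e
  apply hF.enum_inj.ap_inj hm hn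
  have hm' := hF.enum_fun.ap_mem hm
  have hn' := hF.enum_fun.ap_mem hn
  have hm2 := hm'
  have hn2 := hn'
  unfold firsts at hm2 hn2
  rw [mem_sep] at hm2 hn2
  rcases trichotomy (hK.1 _ (hsub _ hm')) (hK.1 _ (hsub _ hn')) with h1 | h1 | h1
  · exact absurd e (hn2.2 _ (hsub _ hm') h1)
  · exact h1
  · exact absurd e.symm (hm2.2 _ (hsub _ hn') h1)

end Pool.Agent.H78.ZF
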